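import Pool.Agent.Helper865.Kne.Defs

set_option autoImplicit false

open Finset

namespace Pool.Agent.Helper865.Kne


lemma hh_le {m n k l c : ℕ}
    (hc : ∀ W : Finset (Finset (Fin (2 * n + k))), (∀ A ∈ W, A.card = n) → W.card = m → Col l W c) :
    hh m n k l ≤ c := by
  classical
  apply csSup_le'
  rintro c0 ⟨H, hH, hc0⟩
  have hfin : H.verts.Finite := Set.toFinite _
  obtain ⟨W, hWdef⟩ : ∃ W : Finset (Finset (Fin (2 * n + k))),
      W = hfin.toFinset.image Subtype.val := ⟨_, rfl⟩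
  have hWcard : W.card = m := by
    rw [hWdef, Finset.card_image_of_injective _ Subtype.val_injective,
      ← Set.ncard_eq_toFinset_card _ hfin, hH]
  have hWn : ∀ A ∈ W, A.card = n := by
    intro A hA
    rw [hWdef, Finset.mem_image] at hA
    obtain ⟨B, _, hB⟩ := hA
    rw [← hB]
    exact B.2
  obtain ⟨f, hf1, hf2⟩ := hc W hWn hWcard
  have hmem : ∀ v : H.verts, v.1.1 ∈ W := by
    intro v
    rw [hWdef, Finset.mem_image]
    exact ⟨v.1, by rw [Set.Finite.mem_toFinset]; exact v.2, rfl⟩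
  have hcol : H.coe.Colorable c := by
    refine ⟨SimpleGraph.Coloring.mk (fun v => (⟨f v.1.1, hf1 _ (hmem v)⟩ : Fin c)) ?_⟩
    intro u v huv heq
    have h1 : H.Adj u.1 v.1 := huv
    have h2 : (G n k l).Adj u.1 v.1 := H.adj_sub h1
    have h3 : f u.1.1 = f v.1.1 := congrArg Fin.val heq
    have h4 : u.1.1 ≠ v.1.1 := fun h => h2.1 (Subtype.ext h)
    have h5 := hf2 _ (hmem u) _ (hmem v) h4 h3
    have h6 := h2.2
    omega
  have h7 := hcol.chromaticNumber_le
  rw [hc0] at h7
  exact_mod_cast h7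

lemma le_hh {m n k l c : ℕ} (hm : m ≤ (2 * n + k).choose n)
    (W : Finset (Finset (Fin (2 * n + k)))) (hW : ∀ A ∈ W, A.card = n) (hWm : W.card ≤ m)
    (hc : ∀ c', Col l W c' → c ≤ c') : c ≤ hh m n k l := by
  classical
  have hsub : W ⊆ Finset.powersetCard n Finset.univ := by
    intro A hA
    rw [Finset.mem_powersetCard]
    exact ⟨Finset.subset_univ _, hW A hA⟩
  obtain ⟨W', hWW', hW'sub, hW'card⟩ := Finset.exists_subsuperset_card_eq hsub hWm (by
    rw [Finset.card_powersetCard, Finset.card_univ, Fintype.card_fin]; exact hm)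
  have hW'n : ∀ A ∈ W', A.card = n := fun A hA => (Finset.mem_powersetCard.mp (hW'sub hA)).2
  obtain ⟨H, hHdef⟩ : ∃ H : (G n k l).Subgraph,
      H = (⊤ : (G n k l).Subgraph).induce {v | v.1 ∈ W'} := ⟨_, rfl⟩
  have hverts : H.verts = {v | v.1 ∈ W'} := by rw [hHdef]; rfl
  have hncard : H.verts.ncard = m := by
    have h1 : Subtype.val '' H.verts = (W' : Set (Finset (Fin (2 * n + k)))) := by
      ext A
      rw [hverts]
      constructor
      · rintro ⟨B, hB, rfl⟩
        exact hB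
      · intro hA
        exact ⟨⟨A, hW'n A hA⟩, hA, rfl⟩
    rw [← Set.ncard_image_of_injective _ Subtype.val_injective, h1, Set.ncard_coe_finset, hW'card]
  have hcolfin : H.coe.Colorable (Fintype.card H.verts) := H.coe.colorable_of_fintype
  have hne : H.coe.chromaticNumber ≠ ⊤ := by
    intro h
    have h2 := hcolfin.chromaticNumber_le
    rw [h] at h2
    exact absurd h2 (by simp)
  obtain ⟨c0, hc0⟩ := ENat.ne_top_iff_exists.mp hne
  have hcol : H.coe.Colorable c0 := by
    apply SimpleGraph.chromaticNumber_le_iff_colorable.mp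
    rw [← hc0]
  have hmem : c0 ∈ {c : ℕ | ∃ H : (G n k l).Subgraph, H.verts.ncard = m ∧
      H.coe.chromaticNumber = c} := ⟨H, hncard, hc0.symm⟩
  have hbdd : BddAbove {c : ℕ | ∃ H : (G n k l).Subgraph, H.verts.ncard = m ∧
      H.coe.chromaticNumber = c} := by
    refine ⟨m, ?_⟩
    rintro c1 ⟨H1, hH1, hc1⟩
    have h1 : H1.coe.Colorable (Fintype.card H1.verts) := H1.coe.colorable_of_fintype
    have h2 := h1.chromaticNumber_le
    rw [hc1] at h2
    have h3 : c1 ≤ Fintype.card H1.verts := by exact_mod_cast h2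
    have h4 : Fintype.card H1.verts = m := by
      rw [← hH1, ← Nat.card_coe_set_eq, Nat.card_eq_fintype_card]
    omega
  have h1 : c0 ≤ hh m n k l := le_csSup hbdd hmem
  refine le_trans (hc c0 ?_) h1
  obtain ⟨C⟩ := hcol
  have hv : ∀ A (hA : A ∈ W'), (⟨A, hW'n A hA⟩ : {A : Finset (Fin (2 * n + k)) // A.card = n}) ∈
      H.verts := by
    intro A hA
    rw [hverts]
    exact hA
  refine ⟨fun A => if hA : A ∈ W' then (C ⟨⟨A, hW'n A hA⟩, hv A hA⟩ : Fin c0).val else 0, ?_, ?_⟩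
  · intro A hA
    have hA' := hWW' hA
    simp only [dif_pos hA']
    exact Fin.isLt _
  · intro A hA B hB hAB hEq
    have hA' := hWW' hA
    have hB' := hWW' hB
    simp only [dif_pos hA', dif_pos hB'] at hEq
    by_contra hcon
    have hadj : H.coe.Adj ⟨⟨A, hW'n A hA'⟩, hv A hA'⟩ ⟨⟨B, hW'n B hB'⟩, hv B hB'⟩ := by
      show H.Adj ⟨A, hW'n A hA'⟩ ⟨B, hW'n B hB'⟩
      rw [hHdef]
      refine ⟨hA', hB', ?_⟩
      show (G n k l).Adj ⟨A, hW'n A hA'⟩ ⟨B, hW'n B hB'⟩
      refine ⟨fun h => hAB (congrArg Subtype.val h), ?_⟩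
      exact not_lt.mp hcon
    exact C.valid hadj (Fin.ext hEq)

end Pool.Agent.Helper865.Kne
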