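import Mathlib

set_option autoImplicit false

open Finset

namespace Pool.Agent.Helper865.Kne

/-- `W` splits into `c` classes such that any two distinct members of a class meet in more than
`l` elements -/
def Col {α : Type*} [DecidableEq α] (l : ℕ) (W : Finset (Finset α)) (c : ℕ) : Prop :=
  ∃ f : Finset α → ℕ, (∀ A ∈ W, f A < c) ∧
    ∀ A ∈ W, ∀ B ∈ W, A ≠ B → f A = f B → l < (A ∩ B).card

/-- the generalized Kneser graph: the `n`-subsets of a set with `2 n + k` elements, two distinct
ones adjacent when they meet in at most `l` elements -/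
def G (n k l : ℕ) : SimpleGraph {A : Finset (Fin (2 * n + k)) // A.card = n} where
  Adj A B := A ≠ B ∧ (A.1 ∩ B.1).card ≤ l
  symm := ⟨fun A B h => ⟨h.1.symm, by rw [Finset.inter_comm]; exact h.2⟩⟩
  loopless := ⟨fun A h => h.1 rfl⟩

/-- the largest chromatic number of a subgraph of `G n k l` with exactly `m` vertices -/
noncomputable def hh (m n k l : ℕ) : ℕ :=
  sSup {c : ℕ | ∃ H : (G n k l).Subgraph, H.verts.ncard = m ∧ H.coe.chromaticNumber = c}

end Pool.Agent.Helper865.Kne
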