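import Pool.Agent.Helper865.Kne.Defs

set_option autoImplicit false

open Finset

namespace Pool.Agent.Helper865.Kne


lemma kle_card (M n : ℕ) (x : ℝ) (hx : 0 < x) (hx1 : x ≤ 1) :
    ((((univ : Finset (Finset (Fin M))).filter (fun A => A.card < n)).card : ℕ) : ℝ) * x ^ n
      ≤ (1 + x) ^ M := by
  have h1 : (1 + x) ^ M = ∑ A : Finset (Fin M), x ^ A.card := by
    have h := Finset.sum_pow_mul_eq_add_pow x 1 (univ : Finset (Fin M))
    simp only [one_pow, mul_one, card_univ, Fintype.card_fin, powerset_univ] at h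
    rw [h, add_comm]
  rw [h1]
  calc ((((univ : Finset (Finset (Fin M))).filter (fun A => A.card < n)).card : ℕ) : ℝ) * x ^ n
      = ∑ A ∈ (univ : Finset (Finset (Fin M))).filter (fun A => A.card < n), x ^ n := by
        rw [sum_const, nsmul_eq_mul]
    _ ≤ ∑ A ∈ (univ : Finset (Finset (Fin M))).filter (fun A => A.card < n), x ^ A.card := by
        apply sum_le_sum
        intro A hA
        rw [mem_filter] at hA
        exact pow_le_pow_of_le_one hx.le hx1 hA.2.le
    _ ≤ ∑ A : Finset (Fin M), x ^ A.card := by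
        apply sum_le_sum_of_subset_of_nonneg (filter_subset _ _)
        intro A _ _
        positivity

lemma kneser_lower_eps
    (harris : ∀ M n c : ℕ, 1 ≤ n → Col 0 (powersetCard n (univ : Finset (Fin M))) c →
      2 ^ M ≤ 2 ^ c * ((univ : Finset (Finset (Fin M))).filter (fun A => A.card < n)).card)
    (δ : ℝ) (hδ : 0 < δ) (hδ1 : δ ≤ 1) :
    ∃ κ : ℝ, 0 < κ ∧ ∀ M n c : ℕ, 1 ≤ n → (2 + δ) * n ≤ M →
      Col 0 (powersetCard n (univ : Finset (Fin M))) c → κ * n ≤ c := by
  have hl2 : 0 < Real.log 2 := Real.log_pos (by norm_num)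
  set x : ℝ := 1 - δ / 4 with hx
  have hx0 : 0 < x := by rw [hx]; linarith
  have hx1 : x ≤ 1 := by rw [hx]; linarith
  set L : ℝ := Real.log x + (2 + δ) * (Real.log 2 - Real.log (1 + x)) with hL
  have hLpos : 0 < L := by
    have h1 : 1 - x⁻¹ ≤ Real.log x := Real.one_sub_inv_le_log_of_pos hx0
    have h2 : Real.log ((1 + x) / 2) ≤ (1 + x) / 2 - 1 := Real.log_le_sub_one_of_pos (by linarith)
    rw [Real.log_div (by linarith) (by norm_num)] at h2
    have h3 : x⁻¹ < 1 + δ / 4 + δ ^ 2 / 8 := by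
      rw [inv_lt_iff_one_lt_mul₀ hx0, hx]
      have h5 : 0 < δ ^ 2 * (2 - δ) := by
        have : 0 < 2 - δ := by linarith
        positivity
      nlinarith
    have h4 : (2 + δ) * (Real.log 2 - Real.log (1 + x)) ≥ (2 + δ) * (δ / 8) := by
      apply mul_le_mul_of_nonneg_left _ (by linarith)
      rw [hx] at h2 ⊢
      linarith
    nlinarith
  refine ⟨L / Real.log 2, div_pos hLpos hl2, ?_⟩
  intro M n c hn hM hc
  have h1 := harris M n c hn hc
  have h2 := kle_card M n x hx0 hx1
  set K : ℕ := ((univ : Finset (Finset (Fin M))).filter (fun A => A.card < n)).card with hK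
  have h3 : (2 : ℝ) ^ M * x ^ n ≤ 2 ^ c * (1 + x) ^ M := by
    have h4 : (2 : ℝ) ^ M ≤ 2 ^ c * (K : ℝ) := by exact_mod_cast h1
    calc (2 : ℝ) ^ M * x ^ n ≤ (2 ^ c * (K : ℝ)) * x ^ n :=
          mul_le_mul_of_nonneg_right h4 (by positivity)
      _ = 2 ^ c * ((K : ℝ) * x ^ n) := by ring
      _ ≤ 2 ^ c * (1 + x) ^ M := mul_le_mul_of_nonneg_left h2 (by positivity)
  have h5 := Real.log_le_log (by positivity) h3
  rw [Real.log_mul (by positivity) (by positivity), Real.log_mul (by positivity) (by positivity),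
    Real.log_pow, Real.log_pow, Real.log_pow, Real.log_pow] at h5
  have h6 : 0 ≤ Real.log 2 - Real.log (1 + x) := by
    have := Real.log_le_log (show (0 : ℝ) < 1 + x by linarith) (show 1 + x ≤ 2 by linarith)
    linarith
  have h7 : (2 + δ) * n * (Real.log 2 - Real.log (1 + x)) ≤ M * (Real.log 2 - Real.log (1 + x)) :=
    mul_le_mul_of_nonneg_right hM h6
  rw [div_mul_eq_mul_div, div_le_iff₀ hl2, hL]
  nlinarith

end Pool.Agent.Helper865.Kne
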