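import Pool.Agent.Helper865.Kne.Defs

set_option autoImplicit false

open Finset

namespace Pool.Agent.Helper865.Kne


lemma blow_lower (n n' M N : ℕ) (hn : 1 ≤ n) (hn' : 1 ≤ n') (hN : M * (n / n' + 1) ≤ N) :
    ∃ W : Finset (Finset (Fin N)), (∀ A ∈ W, A.card = n) ∧ W.card ≤ 2 ^ M ∧
      ∀ c, Col 0 W c → Col 0 (powersetCard n' (univ : Finset (Fin M))) c := by
  classical
  obtain ⟨b, hb⟩ : ∃ b, b = n / n' + 1 := ⟨_, rfl⟩
  rw [← hb] at hN
  have hbn : n ≤ n' * b := by
    rw [hb]
    have h1 := Nat.div_add_mod n n'
    have h2 := Nat.mod_lt n (show n' > 0 by omega)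
    rw [mul_add, mul_one]
    omega
  let e : Fin M × Fin b → Fin N := fun p => Fin.castLE hN (finProdFinEquiv p)
  have he : Function.Injective e := by
    intro p q h
    exact finProdFinEquiv.injective (Fin.castLE_injective hN h)
  let blk : Finset (Fin M) → Finset (Fin N) := fun B => (B ×ˢ (univ : Finset (Fin b))).image e
  have hcard : ∀ B, (blk B).card = B.card * b := by
    intro B
    simp only [blk]
    rw [card_image_of_injective _ he, card_product, card_univ, Fintype.card_fin]
  have hex : ∀ B ∈ powersetCard n' (univ : Finset (Fin M)), ∃ A ⊆ blk B, A.card = n := by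
    intro B hB
    have h1 : B.card = n' := (mem_powersetCard.1 hB).2
    apply exists_subset_card_eq
    rw [hcard, h1]
    exact hbn
  choose! φ hφ1 hφ2 using hex
  refine ⟨(powersetCard n' (univ : Finset (Fin M))).image φ, ?_, ?_, ?_⟩
  · intro A hA
    obtain ⟨B, hB, rfl⟩ := mem_image.1 hA
    exact hφ2 B hB
  · refine card_image_le.trans ?_
    have h1 : powersetCard n' (univ : Finset (Fin M)) ⊆ (univ : Finset (Fin M)).powerset := by
      intro B _
      exact mem_powerset.2 (subset_univ B)
    have h2 := card_le_card h1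
    rwa [card_powerset, card_univ, Fintype.card_fin] at h2
  · rintro c ⟨f, hf1, hf2⟩
    refine ⟨fun B => f (φ B), ?_, ?_⟩
    · intro B hB
      exact hf1 _ (mem_image_of_mem φ hB)
    · intro B hB B' hB' hne heq
      by_contra hcon
      have h0 : B ∩ B' = ∅ := by
        rw [← card_eq_zero]
        omega
      have hdis : φ B ∩ φ B' = ∅ := by
        rw [eq_empty_iff_forall_notMem]
        intro x hx
        rw [mem_inter] at hx
        have h1 := hφ1 B hB hx.1
        have h2 := hφ1 B' hB' hx.2
        simp only [blk, mem_image, mem_product, mem_univ, and_true] at h1 h2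
        obtain ⟨p, hp, hpx⟩ := h1
        obtain ⟨q, hq, hqx⟩ := h2
        have h3 : p = q := he (hpx.trans hqx.symm)
        rw [← h3] at hq
        have h4 : p.1 ∈ B ∩ B' := mem_inter.2 ⟨hp, hq⟩
        rw [h0] at h4
        exact absurd h4 (notMem_empty _)
      have hneφ : φ B ≠ φ B' := by
        intro h
        rw [← h, inter_self] at hdis
        have h5 := hφ2 B hB
        rw [hdis, card_empty] at h5
        omega
      have h6 := hf2 _ (mem_image_of_mem φ hB) _ (mem_image_of_mem φ hB') hneφ heq
      rw [hdis, card_empty] at h6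
      exact absurd h6 (lt_irrefl _)

end Pool.Agent.Helper865.Kne
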