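import Mathlib

set_option autoImplicit false

namespace Pool.Agent.Helper865.Kne

lemma num_eps (ε κ : ℝ) (hε : 0 < ε) (hε1 : ε ≤ 1) (hκ : 0 < κ) : ∃ c : ℝ, 0 < c ∧
    ∀ n k m h : ℕ, 1 ≤ n → ε * n ≤ k → k ≤ n → 2 ≤ m → m ≤ (2 * n + k).choose n → 1 ≤ h →
      (∀ n' M : ℕ, 1 ≤ n' → (2 + ε / 5) * n' ≤ M → M * (n / n' + 1) ≤ 2 * n + k →
        2 ^ M ≤ m → κ * n' ≤ h) →
      c * Real.log m ≤ h := by
  obtain ⟨δ, hδ⟩ : ∃ δ, δ = ε / 5 := ⟨_, rfl⟩
  have hδ0 : 0 < δ := by rw [hδ]; positivity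
  have hδ1 : δ ≤ 1 / 5 := by rw [hδ]; linarith
  have hεδ : ε = 5 * δ := by rw [hδ]; ring
  have hl2 : 0.6931 < Real.log 2 := by linarith [Real.log_two_gt_d9]
  have hl2' : Real.log 2 < 0.6932 := by linarith [Real.log_two_lt_d9]
  refine ⟨min (κ * δ / 6) (δ ^ 2 / (3 * (1 + δ))), lt_min (by positivity) (by positivity), ?_⟩
  intro n k m h hn hk1 hk2 hm hmc hh H
  rw [← hδ] at H
  have hn0 : (1 : ℝ) ≤ n := by exact_mod_cast hn
  have hm0 : (2 : ℝ) ≤ m := by exact_mod_cast hm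
  have hmpos : (0 : ℝ) < m := by linarith
  have hlogm : 0 < Real.log m := Real.log_pos (by linarith)
  have hlog : Real.log m ≤ 3 * n * Real.log 2 := by
    have h1 : m ≤ 2 ^ (3 * n) := hmc.trans ((Nat.choose_le_two_pow _ _).trans
      (Nat.pow_le_pow_right (by norm_num) (by omega)))
    have h2 : (m : ℝ) ≤ 2 ^ (3 * n) := by exact_mod_cast h1
    have h3 := Real.log_le_log hmpos h2
    rw [Real.log_pow] at h3
    push_cast at h3
    linarith
  set T : ℝ := min (δ * n) (Real.log m / (4 * Real.log 2)) with hT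
  have hT0 : 0 < T := lt_min (by positivity) (by positivity)
  have hT1 : T ≤ δ * n := min_le_left _ _
  have hT2 : T * (4 * Real.log 2) ≤ Real.log m := by
    have : T ≤ Real.log m / (4 * Real.log 2) := min_le_right _ _
    rwa [le_div_iff₀ (by positivity)] at this
  have hTlow : δ / 3 * Real.log m ≤ T := by
    refine le_min ?_ ?_
    · have h1 : Real.log m ≤ 3 * n := by
        have : (3 * (n : ℝ)) * Real.log 2 ≤ 3 * n * 1 :=
          mul_le_mul_of_nonneg_left (by linarith) (by positivity)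
        linarith
      have := mul_le_mul_of_nonneg_left h1 hδ0.le
      linarith
    · rw [le_div_iff₀ (by positivity)]
      have h1 : δ / 3 * (4 * Real.log 2) ≤ 1 := by nlinarith
      have := mul_le_mul_of_nonneg_right h1 hlogm.le
      linarith
  have hfl := Nat.floor_le hT0.le
  have hfl2 := Nat.lt_floor_add_one T
  set n' : ℕ := ⌊T⌋₊ with hn'
  have hhr : (1 : ℝ) ≤ h := by exact_mod_cast hh
  rcases le_or_gt (1 / δ) (n' : ℝ) with hc | hc
  · have h1δ : 1 ≤ δ * n' := by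
      rw [div_le_iff₀ hδ0] at hc; linarith
    have h5 : (5 : ℝ) ≤ n' := by
      have : (5 : ℝ) ≤ 1 / δ := by
        rw [le_div_iff₀ hδ0]; linarith
      linarith
    have hn'1 : 1 ≤ n' := by
      have : (1 : ℝ) ≤ n' := by linarith
      exact_mod_cast this
    have hM1 : (2 + δ) * n' ≤ (⌈(2 + δ) * (n' : ℝ)⌉₊ : ℝ) := Nat.le_ceil _
    have hM2 : (⌈(2 + δ) * (n' : ℝ)⌉₊ : ℝ) < (2 + δ) * n' + 1 :=
      Nat.ceil_lt_add_one (by positivity)
    set M : ℕ := ⌈(2 + δ) * (n' : ℝ)⌉₊ with hM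
    have hM3 : (M : ℝ) ≤ (2 + 2 * δ) * n' := by linarith
    have hb : (M : ℝ) * (((n / n' : ℕ) : ℝ) + 1) ≤ 2 * n + k := by
      have hd : ((n / n' : ℕ) : ℝ) ≤ (n : ℝ) / n' := Nat.cast_div_le
      have e1 : (M : ℝ) * (((n / n' : ℕ) : ℝ) + 1) ≤ ((2 + 2 * δ) * n') * ((n : ℝ) / n' + 1) :=
        mul_le_mul hM3 (by linarith) (by positivity) (by positivity)
      have e2 : ((2 + 2 * δ) * n') * ((n : ℝ) / n' + 1) = (2 + 2 * δ) * (n + n') := by
        have : (n' : ℝ) ≠ 0 := by linarith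
        field_simp
      have e3 : (2 + 2 * δ) * ((n : ℝ) + n') ≤ (2 + 2 * δ) * (n + δ * n) :=
        mul_le_mul_of_nonneg_left (by linarith) (by positivity)
      have e4 : (2 + 2 * δ) * ((n : ℝ) + δ * n) ≤ 2 * n + 5 * δ * n := by
        have e5 : δ * δ ≤ 1 / 5 * δ := mul_le_mul_of_nonneg_right hδ1 hδ0.le
        have e6 := mul_le_mul_of_nonneg_right e5 (show (0 : ℝ) ≤ n by linarith)
        have e7 : 0 ≤ δ * n := by positivity
        nlinarith
      rw [hεδ] at hk1
      linarith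
    have hb' : M * (n / n' + 1) ≤ 2 * n + k := by exact_mod_cast hb
    have hpow : 2 ^ M ≤ m := by
      have e1 : (M : ℝ) * Real.log 2 ≤ Real.log m := by
        have e2 : (M : ℝ) ≤ 4 * n' := by
          have e3 : 2 * δ * (n' : ℝ) ≤ 2 * 1 * n' :=
            mul_le_mul_of_nonneg_right (by linarith) (by positivity)
          linarith
        have e4 : (M : ℝ) ≤ 4 * T := by linarith
        have e5 := mul_le_mul_of_nonneg_right e4 (show 0 ≤ Real.log 2 by linarith)
        linarith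
      have e6 : Real.log (2 ^ M) ≤ Real.log m := by rw [Real.log_pow]; exact e1
      have e7 : (2 : ℝ) ^ M ≤ m := (Real.log_le_log_iff (by positivity) hmpos).1 e6
      exact_mod_cast e7
    have hH := H n' M hn'1 hM1 hb' hpow
    have hT3 : T ≤ 2 * n' := by linarith
    calc min (κ * δ / 6) (δ ^ 2 / (3 * (1 + δ))) * Real.log m
        ≤ κ * δ / 6 * Real.log m := mul_le_mul_of_nonneg_right (min_le_left _ _) hlogm.le
      _ = κ / 2 * (δ / 3 * Real.log m) := by ring
      _ ≤ κ / 2 * (2 * n') := mul_le_mul_of_nonneg_left (hTlow.trans hT3) (by positivity)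
      _ = κ * n' := by ring
      _ ≤ h := hH
  · have hT4 : T < 1 / δ + 1 := by linarith
    have h6 : δ / 3 * Real.log m ≤ (1 + δ) / δ := by
      have : 1 / δ + 1 = (1 + δ) / δ := by field_simp
      linarith
    calc min (κ * δ / 6) (δ ^ 2 / (3 * (1 + δ))) * Real.log m
        ≤ δ ^ 2 / (3 * (1 + δ)) * Real.log m :=
          mul_le_mul_of_nonneg_right (min_le_right _ _) hlogm.le
      _ = δ / (1 + δ) * (δ / 3 * Real.log m) := by field_simp
      _ ≤ δ / (1 + δ) * ((1 + δ) / δ) := mul_le_mul_of_nonneg_left h6 (by positivity)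
      _ = 1 := by field_simp
      _ ≤ h := hhr

end Pool.Agent.Helper865.Kne
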