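import Pool.Agent.Helper865.Kne.Defs

set_option autoImplicit false

open Finset

namespace Pool.Agent.Helper865.Kne


lemma harris (M n c : ℕ) (hn : 1 ≤ n)
    (h : Col 0 (powersetCard n (univ : Finset (Fin M))) c) :
    2 ^ M ≤ 2 ^ c * ((univ : Finset (Finset (Fin M))).filter (fun A => A.card < n)).card := by
  classical
  obtain ⟨f, hf, hd⟩ := h
  set D : ℕ → Finset (Finset (Fin M)) := fun i =>
    univ.filter (fun X => ∀ A ∈ powersetCard n (univ : Finset (Fin M)), f A = i → ¬ A ⊆ X)
    with hD
  have hDl : ∀ i, IsLowerSet (D i : Set (Finset (Fin M))) := by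
    intro i X Y hYX hX
    simp only [hD, mem_coe, mem_filter, mem_univ, true_and] at hX ⊢
    intro A hA hfA hAY
    exact hX A hA hfA (hAY.trans hYX)
  have hDc : ∀ i, 2 ^ M ≤ 2 * (D i).card := by
    intro i
    have h1 : ((D i)ᶜ).card ≤ (D i).card := by
      refine Finset.card_le_card_of_injOn (fun X => Xᶜ) ?_ ?_
      · intro X hX
        simp only [hD, coe_compl, Set.mem_compl_iff, mem_coe, mem_filter, mem_univ, true_and,
          not_forall, not_not] at hX
        obtain ⟨A, hA, hfA, hAX⟩ := hX
        simp only [hD, mem_coe, mem_filter, mem_univ, true_and]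
        intro B hB hfB hBX
        have hdis : Disjoint A B := by
          rw [Finset.disjoint_left]
          intro x hxA hxB
          have := hBX hxB
          rw [mem_compl] at this
          exact this (hAX hxA)
        by_cases hAB : A = B
        · subst hAB
          rw [disjoint_self] at hdis
          have hc := (mem_powersetCard.1 hA).2
          rw [hdis] at hc
          simp at hc
          omega
        · have := hd A hA B hB hAB (hfA.trans hfB.symm)
          rw [Finset.disjoint_iff_inter_eq_empty.1 hdis] at this
          simp at this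
      · intro X _ Y _ hXY
        exact compl_injective hXY
    have h2 : (D i).card + ((D i)ᶜ).card = 2 ^ M := by
      rw [Finset.card_add_card_compl]
      simp
    omega
  have key : ∀ k, 2 ^ M ≤ 2 ^ k *
      ((univ : Finset (Finset (Fin M))).filter (fun X => ∀ i < k, X ∈ D i)).card := by
    intro k
    induction k with
    | zero => simp
    | succ k ih =>
      set E := (univ : Finset (Finset (Fin M))).filter (fun X => ∀ i < k, X ∈ D i) with hE
      have hEl : IsLowerSet (E : Set (Finset (Fin M))) := by
        intro X Y hYX hX
        simp only [hE, mem_coe, mem_filter, mem_univ, true_and] at hX ⊢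
        intro i hi
        exact hDl i hYX (hX i hi)
      have hHK := hEl.le_card_inter_finset (hDl k)
      have hEq : (univ : Finset (Finset (Fin M))).filter (fun X => ∀ i < k + 1, X ∈ D i)
          = E ∩ D k := by
        ext X
        simp only [hE, mem_filter, mem_univ, true_and, mem_inter]
        constructor
        · intro hX
          exact ⟨fun i hi => hX i (by omega), hX k (by omega)⟩
        · rintro ⟨h1, h2⟩ i hi
          rcases Nat.lt_succ_iff_lt_or_eq.1 hi with h | h
          · exact h1 i h
          · subst h; exact h2
      rw [hEq]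
      rw [Fintype.card_fin] at hHK
      have h3 := hDc k
      have hpos : 0 < 2 ^ M := by positivity
      have h4 : 2 ^ M * 2 ^ M ≤ 2 ^ M * (2 ^ (k + 1) * (E ∩ D k).card) := by
        calc 2 ^ M * 2 ^ M ≤ (2 ^ k * E.card) * (2 * (D k).card) := Nat.mul_le_mul ih h3
          _ = 2 ^ (k + 1) * (E.card * (D k).card) := by ring
          _ ≤ 2 ^ (k + 1) * (2 ^ M * (E ∩ D k).card) := Nat.mul_le_mul_left _ hHK
          _ = 2 ^ M * (2 ^ (k + 1) * (E ∩ D k).card) := by ring
      exact Nat.le_of_mul_le_mul_left h4 hpos
  refine (key c).trans (Nat.mul_le_mul_left _ (Finset.card_le_card ?_))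
  intro X hX
  simp only [mem_filter, mem_univ, true_and] at hX ⊢
  by_contra hlt
  push Not at hlt
  obtain ⟨A, hAX, hA⟩ := Finset.exists_subset_card_eq hlt
  have hA' : A ∈ powersetCard n (univ : Finset (Fin M)) :=
    mem_powersetCard.2 ⟨subset_univ _, hA⟩
  have := hX (f A) (hf A hA')
  simp only [hD, mem_filter, mem_univ, true_and] at this
  exact this A hA' rfl hAX

end Pool.Agent.Helper865.Kne
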