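import Pool.Agent.Helper865.Kne.Defs

set_option autoImplicit false

open Finset

namespace Pool.Agent.Helper865.Kne


lemma kneser_lower
    (harris : ∀ M n c : ℕ, 1 ≤ n → Col 0 (powersetCard n (univ : Finset (Fin M))) c →
      2 ^ M ≤ 2 ^ c * ((univ : Finset (Finset (Fin M))).filter (fun A => A.card < n)).card)
    (M n c : ℕ) (hn : 1 ≤ n) (hM : 5 * n ≤ 2 * M + 1)
    (h : Col 0 (powersetCard n (univ : Finset (Fin M))) c) : n ≤ 20 * c := by
  by_contra hcon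
  push Not at hcon
  have hnM : n ≤ M := by omega
  -- `c ≥ 1`
  have hc : 1 ≤ c := by
    by_contra hc0
    have hc0' : c = 0 := by omega
    obtain ⟨f, hf, -⟩ := h
    have hne : (powersetCard n (univ : Finset (Fin M))).Nonempty := by
      rw [Finset.powersetCard_nonempty, Finset.card_univ, Fintype.card_fin]
      exact hnM
    obtain ⟨A, hA⟩ := hne
    have := hf A hA
    omega
  have hH := harris M n c hn h
  have hH' : (2 : ℝ) ^ M ≤ 2 ^ c *
      (((univ : Finset (Finset (Fin M))).filter (fun A => A.card < n)).card : ℝ) := by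
    exact_mod_cast hH
  -- bound of the number of small sets
  have hsum : ∑ t ∈ (univ : Finset (Fin M)).powerset, ((2 : ℝ) / 3) ^ t.card * 1 ^ (#(univ : Finset (Fin M)) - #t)
      = (2 / 3 + 1) ^ (#(univ : Finset (Fin M))) := Finset.sum_pow_mul_eq_add_pow _ _ _
  rw [Finset.card_univ, Fintype.card_fin, Finset.powerset_univ] at hsum
  have hsmall : (((univ : Finset (Finset (Fin M))).filter (fun A => A.card < n)).card : ℝ) *
      (2 / 3) ^ n ≤ (5 / 3) ^ M := by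
    have e1 : (5 / 3 : ℝ) ^ M = ∑ t : Finset (Fin M), ((2 : ℝ) / 3) ^ t.card := by
      rw [show (5 / 3 : ℝ) = 2 / 3 + 1 by norm_num, ← hsum]
      refine Finset.sum_congr rfl fun t _ => ?_
      rw [one_pow, mul_one]
    rw [e1]
    calc (((univ : Finset (Finset (Fin M))).filter (fun A => A.card < n)).card : ℝ) * (2 / 3) ^ n
        = ∑ t ∈ (univ : Finset (Finset (Fin M))).filter (fun A => A.card < n), ((2 : ℝ) / 3) ^ n := by
          rw [Finset.sum_const, nsmul_eq_mul]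
      _ ≤ ∑ t ∈ (univ : Finset (Finset (Fin M))).filter (fun A => A.card < n),
            ((2 : ℝ) / 3) ^ t.card := by
          refine Finset.sum_le_sum fun t ht => ?_
          have ht' : t.card < n := (Finset.mem_filter.1 ht).2
          exact pow_le_pow_of_le_one (by norm_num) (by norm_num) ht'.le
      _ ≤ ∑ t : Finset (Fin M), ((2 : ℝ) / 3) ^ t.card :=
          Finset.sum_le_sum_of_subset_of_nonneg (Finset.filter_subset _ _)
            (fun t _ _ => by positivity)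
  have h23 : (0 : ℝ) < (2 / 3) ^ n := by positivity
  have h53 : (0 : ℝ) < (5 / 3 : ℝ) ^ M := by positivity
  have h1 : (2 : ℝ) ^ M * (2 / 3) ^ n ≤ 2 ^ c * (5 / 3) ^ M := by
    calc (2 : ℝ) ^ M * (2 / 3) ^ n
        ≤ (2 ^ c * (((univ : Finset (Finset (Fin M))).filter (fun A => A.card < n)).card : ℝ)) *
          (2 / 3) ^ n := mul_le_mul_of_nonneg_right hH' h23.le
      _ = 2 ^ c * ((((univ : Finset (Finset (Fin M))).filter (fun A => A.card < n)).card : ℝ) *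
          (2 / 3) ^ n) := by ring
      _ ≤ 2 ^ c * (5 / 3) ^ M := mul_le_mul_of_nonneg_left hsmall (by positivity)
  have h2 : ((6 : ℝ) / 5) ^ M ≤ 2 ^ c * (3 / 2) ^ n := by
    have e1 : ((6 : ℝ) / 5) ^ M = (2 : ℝ) ^ M * (2 / 3) ^ n * ((3 / 2) ^ n * (3 / 5) ^ M) := by
      have a1 : ((6 : ℝ) / 5) ^ M = 2 ^ M * (3 / 5) ^ M := by rw [← mul_pow]; norm_num
      have a2 : ((2 : ℝ) / 3) ^ n * (3 / 2) ^ n = 1 := by
        rw [← mul_pow]; norm_num
      rw [a1]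
      calc (2 : ℝ) ^ M * (3 / 5) ^ M = (2 : ℝ) ^ M * (3 / 5) ^ M * 1 := by ring
        _ = (2 : ℝ) ^ M * (3 / 5) ^ M * (((2 : ℝ) / 3) ^ n * (3 / 2) ^ n) := by rw [a2]
        _ = _ := by ring
    have e2 : (2 : ℝ) ^ c * (3 / 2) ^ n = 2 ^ c * (5 / 3) ^ M * ((3 / 2) ^ n * (3 / 5) ^ M) := by
      have a2 : ((5 : ℝ) / 3) ^ M * (3 / 5) ^ M = 1 := by
        rw [← mul_pow]; norm_num
      calc (2 : ℝ) ^ c * (3 / 2) ^ n = (2 : ℝ) ^ c * (3 / 2) ^ n * 1 := by ring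
        _ = (2 : ℝ) ^ c * (3 / 2) ^ n * (((5 : ℝ) / 3) ^ M * (3 / 5) ^ M) := by rw [a2]
        _ = _ := by ring
    rw [e1, e2]
    exact mul_le_mul_of_nonneg_right h1 (by positivity)
  -- squares
  have h3 : ((6 : ℝ) / 5) ^ (2 * M) ≤ 4 ^ c * (9 / 4) ^ n := by
    have a1 : ((6 : ℝ) / 5) ^ (2 * M) = (((6 : ℝ) / 5) ^ M) ^ 2 := by rw [← pow_mul, mul_comm]
    have a2 : (4 : ℝ) ^ c * (9 / 4) ^ n = (2 ^ c * (3 / 2) ^ n) ^ 2 := by
      rw [mul_pow, ← pow_mul, ← pow_mul, mul_comm c 2, mul_comm n 2, pow_mul, pow_mul]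
      norm_num
    rw [a1, a2]
    exact pow_le_pow_left₀ (by positivity) h2 2
  have h4 : ((6 : ℝ) / 5) ^ (5 * n) ≤ 6 / 5 * (4 ^ c * (9 / 4) ^ n) := by
    calc ((6 : ℝ) / 5) ^ (5 * n) ≤ (6 / 5) ^ (2 * M + 1) :=
          pow_le_pow_right₀ (by norm_num) hM
      _ = 6 / 5 * (6 / 5) ^ (2 * M) := by rw [pow_succ]; ring
      _ ≤ _ := mul_le_mul_of_nonneg_left h3 (by norm_num)
  have h5 : (((6 : ℝ) / 5) ^ 5 * (4 / 9)) ^ n ≤ 6 / 5 * 4 ^ c := by
    have a1 : (((6 : ℝ) / 5) ^ 5 * (4 / 9)) ^ n = (6 / 5) ^ (5 * n) * (4 / 9) ^ n := by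
      rw [mul_pow, ← pow_mul]
    have a2 : ((9 : ℝ) / 4) ^ n * (4 / 9) ^ n = 1 := by
      rw [← mul_pow]; norm_num
    rw [a1]
    calc ((6 : ℝ) / 5) ^ (5 * n) * (4 / 9) ^ n ≤ 6 / 5 * (4 ^ c * (9 / 4) ^ n) * (4 / 9) ^ n :=
          mul_le_mul_of_nonneg_right h4 (by positivity)
      _ = 6 / 5 * 4 ^ c * ((9 / 4) ^ n * (4 / 9) ^ n) := by ring
      _ = 6 / 5 * 4 ^ c := by rw [a2, mul_one]
  have h6 : (((6 : ℝ) / 5) ^ 5 * (4 / 9)) ^ (20 * c) ≤ 6 / 5 * 4 ^ c :=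
    (pow_le_pow_right₀ (by norm_num) hcon.le).trans h5
  have h7 : (7 : ℝ) ^ c ≤ 6 / 5 * 4 ^ c := by
    refine le_trans ?_ h6
    rw [pow_mul]
    refine pow_le_pow_left₀ (by norm_num) ?_ c
    norm_num
  obtain ⟨k, rfl⟩ : ∃ k, c = k + 1 := ⟨c - 1, by omega⟩
  have h8 : (4 : ℝ) ^ k ≤ 7 ^ k := pow_le_pow_left₀ (by norm_num) (by norm_num) k
  have h9 : (0 : ℝ) < 4 ^ k := by positivity
  rw [pow_succ, pow_succ] at h7
  nlinarith

end Pool.Agent.Helper865.Kne
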