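import Pool.Agent.Helper865.Kne.Defs

set_option autoImplicit false

open Finset

namespace Pool.Agent.Helper865.Kne


lemma join_lower
    (hk : ∀ M n c : ℕ, 1 ≤ n → 5 * n ≤ 2 * M + 1 →
      Col 0 (powersetCard n (univ : Finset (Fin M))) c → n ≤ 20 * c)
    (n n' q N : ℕ) (hn : 1 ≤ n) (hn' : 1 ≤ n')
    (hN : q * ((5 * n' / 2) * (n / n' + 1)) ≤ N) :
    ∃ W : Finset (Finset (Fin N)), (∀ A ∈ W, A.card = n) ∧ W.card ≤ q * 2 ^ (5 * n' / 2) ∧
      ∀ c, Col 0 W c → q * n' ≤ 20 * c := by
  classical
  obtain ⟨M, hM⟩ : ∃ M, M = 5 * n' / 2 := ⟨_, rfl⟩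
  obtain ⟨b, hb⟩ : ∃ b, b = n / n' + 1 := ⟨_, rfl⟩
  rw [← hM, ← hb] at hN
  rw [← hM]
  have hbn : n ≤ n' * b := by
    rw [hb, mul_add, mul_one]
    have h1 := Nat.div_add_mod n n'
    have h2 := Nat.mod_lt n hn'
    omega
  have hMn : 5 * n' ≤ 2 * M + 1 := by omega
  have hcard : Fintype.card (Fin q × Fin M × Fin b) ≤ Fintype.card (Fin N) := by
    simpa [Fintype.card_prod, Fintype.card_fin] using hN
  obtain ⟨e⟩ := Function.Embedding.nonempty_of_card_le hcard
  let U : Fin q → Finset (Fin M) → Finset (Fin N) := fun i B =>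
    (({i} : Finset (Fin q)) ×ˢ (B ×ˢ (univ : Finset (Fin b)))).map e
  have hUcard : ∀ i B, (U i B).card = B.card * b := by
    intro i B
    simp [U, Finset.card_product]
  have hUmem : ∀ i B x, x ∈ U i B ↔ ∃ m ∈ B, ∃ s, e (i, m, s) = x := by
    intro i B x
    simp only [U, Finset.mem_map, Finset.mem_product, Finset.mem_singleton, Finset.mem_univ,
      and_true, Prod.exists]
    constructor
    · rintro ⟨a, m, s, ⟨rfl, hm⟩, h⟩
      exact ⟨m, hm, s, h⟩
    · rintro ⟨m, hm, s, h⟩
      exact ⟨i, m, s, ⟨rfl, hm⟩, h⟩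
  have hUdisj : ∀ i B j B', Disjoint (U i B) (U j B') ∨ (i = j ∧ (B ∩ B').Nonempty) := by
    intro i B j B'
    by_cases h : i = j ∧ (B ∩ B').Nonempty
    · exact Or.inr h
    · left
      rw [Finset.disjoint_left]
      intro x hx hx'
      obtain ⟨m, hm, s, h1⟩ := (hUmem i B x).1 hx
      obtain ⟨m', hm', s', h2⟩ := (hUmem j B' x).1 hx'
      have h3 := e.injective (h1.trans h2.symm)
      simp only [Prod.mk.injEq] at h3
      obtain ⟨h4, h5, _⟩ := h3
      exact h ⟨h4, ⟨m, Finset.mem_inter.2 ⟨hm, h5 ▸ hm'⟩⟩⟩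
  have hφ : ∀ (i : Fin q) (B : Finset (Fin M)), ∃ T : Finset (Fin N), T ⊆ U i B ∧
      (B.card = n' → T.card = n) := by
    intro i B
    by_cases h : B.card = n'
    · have h1 : n ≤ (U i B).card := by rw [hUcard, h]; exact hbn
      obtain ⟨T, hT, hT2⟩ := Finset.exists_subset_card_eq h1
      exact ⟨T, hT, fun _ => hT2⟩
    · exact ⟨∅, Finset.empty_subset _, fun h' => absurd h' h⟩
  choose φ hφU hφc using hφ
  have hφdisj : ∀ i B j B', ¬ (i = j ∧ (B ∩ B').Nonempty) → Disjoint (φ i B) (φ j B') := by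
    intro i B j B' h
    rcases hUdisj i B j B' with h1 | h1
    · exact Finset.disjoint_of_subset_left (hφU i B)
        (Finset.disjoint_of_subset_right (hφU j B') h1)
    · exact absurd h1 h
  have hmemW : ∀ i B, B.card = n' → φ i B ∈
      ((univ : Finset (Fin q)) ×ˢ powersetCard n' (univ : Finset (Fin M))).image
        (fun t => φ t.1 t.2) := by
    intro i B hB
    refine Finset.mem_image.2 ⟨(i, B), ?_, rfl⟩
    exact Finset.mem_product.2 ⟨Finset.mem_univ _, Finset.mem_powersetCard.2
      ⟨Finset.subset_univ _, hB⟩⟩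
  refine ⟨((univ : Finset (Fin q)) ×ˢ powersetCard n' (univ : Finset (Fin M))).image
    (fun t => φ t.1 t.2), ?_, ?_, ?_⟩
  · intro A hA
    obtain ⟨⟨i, B⟩, hB, rfl⟩ := Finset.mem_image.1 hA
    have h1 := (Finset.mem_product.1 hB).2
    exact hφc i B (Finset.mem_powersetCard.1 h1).2
  · refine Finset.card_image_le.trans ?_
    rw [Finset.card_product, Finset.card_univ, Fintype.card_fin, Finset.card_powersetCard,
      Finset.card_univ, Fintype.card_fin]
    exact Nat.mul_le_mul_left _ (Nat.choose_le_two_pow _ _)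
  · rintro c ⟨f, hf1, hf2⟩
    -- disjoint sets have different colours
    have hne : ∀ i B j B', B.card = n' → B'.card = n' → ¬ (i = j ∧ (B ∩ B').Nonempty) →
        f (φ i B) ≠ f (φ j B') := by
      intro i B j B' hB hB' h hf
      have hd := hφdisj i B j B' h
      have hc := hφc i B hB
      have hneq : φ i B ≠ φ j B' := by
        intro h'
        rw [← h', disjoint_self] at hd
        have h3 : (φ i B).card = 0 := by
          rw [hd]; rfl
        omega
      have h4 := hf2 _ (hmemW i B hB) _ (hmemW j B' hB') hneq hf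
      rw [Finset.disjoint_iff_inter_eq_empty.1 hd, Finset.card_empty] at h4
      exact absurd h4 (lt_irrefl _)
    let C : Fin q → Finset ℕ := fun i =>
      (powersetCard n' (univ : Finset (Fin M))).image (fun B => f (φ i B))
    have hCdisj : ∀ i ∈ (univ : Finset (Fin q)), ∀ j ∈ (univ : Finset (Fin q)), i ≠ j →
        Disjoint (C i) (C j) := by
      intro i _ j _ hij
      rw [Finset.disjoint_left]
      intro x hx hx'
      obtain ⟨B, hB, h1⟩ := Finset.mem_image.1 hx
      obtain ⟨B', hB', h2⟩ := Finset.mem_image.1 hx'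
      exact hne i B j B' (Finset.mem_powersetCard.1 hB).2 (Finset.mem_powersetCard.1 hB').2
        (fun h => hij h.1) (h1.trans h2.symm)
    have hsum : ∑ i : Fin q, (C i).card ≤ c := by
      rw [← Finset.card_biUnion hCdisj]
      have : (univ : Finset (Fin q)).biUnion C ⊆ Finset.range c := by
        intro x hx
        obtain ⟨i, _, hx⟩ := Finset.mem_biUnion.1 hx
        obtain ⟨B, hB, rfl⟩ := Finset.mem_image.1 hx
        exact Finset.mem_range.2 (hf1 _ (hmemW i B (Finset.mem_powersetCard.1 hB).2))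
      simpa using Finset.card_le_card this
    have hone : ∀ i : Fin q, n' ≤ 20 * (C i).card := by
      intro i
      apply hk M n' _ hn' hMn
      have hmemC : ∀ B ∈ powersetCard n' (univ : Finset (Fin M)), f (φ i B) ∈ C i := fun B hB =>
        Finset.mem_image.2 ⟨B, hB, rfl⟩
      refine ⟨fun B => if h : f (φ i B) ∈ C i then ((C i).equivFin ⟨_, h⟩ : Fin (C i).card).val
        else 0, ?_, ?_⟩
      · intro B hB
        simp only [dif_pos (hmemC B hB)]
        exact Fin.is_lt _
      · intro A hA B hB _ hAB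
        simp only [dif_pos (hmemC A hA), dif_pos (hmemC B hB)] at hAB
        have h1 := (C i).equivFin.injective (Fin.ext hAB)
        have h2 : f (φ i A) = f (φ i B) := by
          simpa using h1
        by_contra hcon
        have h3 : ¬ (i = i ∧ (A ∩ B).Nonempty) := by
          rintro ⟨_, h4⟩
          exact hcon (Finset.card_pos.2 h4)
        exact hne i A i B (Finset.mem_powersetCard.1 hA).2 (Finset.mem_powersetCard.1 hB).2 h3 h2
    calc q * n' = ∑ _i : Fin q, n' := by simp
      _ ≤ ∑ i : Fin q, 20 * (C i).card := Finset.sum_le_sum fun i _ => hone i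
      _ = 20 * ∑ i : Fin q, (C i).card := by rw [Finset.mul_sum]
      _ ≤ 20 * c := Nat.mul_le_mul_left _ hsum

lemma clique_lower (n p N : ℕ) (hn : 1 ≤ n) (hN : p * n ≤ N) :
    ∃ W : Finset (Finset (Fin N)), (∀ A ∈ W, A.card = n) ∧ W.card = p ∧
      ∀ c, Col 0 W c → p ≤ c := by
  classical
  have hcard : Fintype.card (Fin p × Fin n) ≤ Fintype.card (Fin N) := by
    simpa [Fintype.card_prod, Fintype.card_fin] using hN
  obtain ⟨e⟩ := Function.Embedding.nonempty_of_card_le hcard
  let φ : Fin p → Finset (Fin N) := fun i =>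
    (({i} : Finset (Fin p)) ×ˢ (univ : Finset (Fin n))).map e
  have hφc : ∀ i, (φ i).card = n := by
    intro i
    simp [φ, Finset.card_product]
  have hdisj : ∀ i j, i ≠ j → Disjoint (φ i) (φ j) := by
    intro i j hij
    rw [Finset.disjoint_left]
    intro x hx hx'
    simp only [φ, Finset.mem_map, Finset.mem_product, Finset.mem_singleton, Finset.mem_univ,
      and_true, Prod.exists] at hx hx'
    obtain ⟨a, s, rfl, h1⟩ := hx
    obtain ⟨a', s', rfl, h2⟩ := hx'
    have h3 := e.injective (h1.trans h2.symm)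
    simp only [Prod.mk.injEq] at h3
    exact hij h3.1
  have hinj : Function.Injective φ := by
    intro i j hij
    by_contra h
    have hd := hdisj i j h
    rw [← hij, disjoint_self] at hd
    have h3 : (φ i).card = 0 := by
      rw [hd]; rfl
    rw [hφc] at h3
    omega
  have hWc : ((univ : Finset (Fin p)).image φ).card = p := by
    rw [Finset.card_image_of_injective _ hinj, Finset.card_univ, Fintype.card_fin]
  refine ⟨(univ : Finset (Fin p)).image φ, ?_, hWc, ?_⟩
  · intro A hA
    obtain ⟨i, _, rfl⟩ := Finset.mem_image.1 hA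
    exact hφc i
  · rintro c ⟨f, hf1, hf2⟩
    have hfinj : Set.InjOn f ((univ : Finset (Fin p)).image φ : Finset (Finset (Fin N))) := by
      intro A hA B hB hAB
      by_contra hne
      have h1 := hf2 A hA B hB hne hAB
      obtain ⟨i, _, rfl⟩ := Finset.mem_image.1 (Finset.mem_coe.1 hA)
      obtain ⟨j, _, rfl⟩ := Finset.mem_image.1 (Finset.mem_coe.1 hB)
      have hij : i ≠ j := fun h => hne (by rw [h])
      rw [Finset.disjoint_iff_inter_eq_empty.1 (hdisj i j hij), Finset.card_empty] at h1
      exact absurd h1 (lt_irrefl _)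
    rw [← hWc, ← Finset.card_image_of_injOn hfinj]
    have : (((univ : Finset (Fin p)).image φ).image f) ⊆ Finset.range c := by
      intro x hx
      obtain ⟨A, hA, rfl⟩ := Finset.mem_image.1 hx
      exact Finset.mem_range.2 (hf1 A hA)
    simpa using Finset.card_le_card this

end Pool.Agent.Helper865.Kne
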