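import Mathlib

set_option autoImplicit false

namespace Pool.Agent.Helper865.Kne

lemma num_lower (n k m h : ℕ) (hn : 1 ≤ n) (hk : n ≤ k) (hm : 1 ≤ m)
    (h1 : ∀ p : ℕ, p * n ≤ 2 * n + k → p ≤ m → p ≤ h)
    (h2 : ∀ q n' : ℕ, 1 ≤ n' → q * ((5 * n' / 2) * (n / n' + 1)) ≤ 2 * n + k →
      q * 2 ^ (5 * n' / 2) ≤ m → q * n' ≤ 20 * h) :
    min (m : ℝ) (min ((k : ℝ) + 2) ((2 + (k : ℝ) / n) * Real.log (2 + m / (2 + (k : ℝ) / n)))) / 2000
      ≤ h := by
  have hn0 : (0 : ℝ) < n := by exact_mod_cast hn
  have hn0' : (n : ℝ) ≠ 0 := hn0.ne'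
  obtain ⟨T, hT⟩ : ∃ T : ℝ, T = 2 + (k : ℝ) / n := ⟨_, rfl⟩
  rw [← hT]
  have hTn : T * n = 2 * n + k := by
    rw [hT]
    field_simp
  have hT3 : 3 ≤ T := by
    rw [hT]
    have : (1 : ℝ) ≤ (k : ℝ) / n := by
      rw [le_div_iff₀ hn0, one_mul]
      exact_mod_cast hk
    linarith
  have hT0 : 0 < T := by linarith
  have hh0 : (0 : ℝ) ≤ h := Nat.cast_nonneg h
  rcases le_or_gt (m : ℝ) T with hmT | hmT
  · have h3 : m * n ≤ 2 * n + k := by
      have : (m : ℝ) * n ≤ 2 * n + k := by
        rw [← hTn]
        exact mul_le_mul_of_nonneg_right hmT hn0.le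
      exact_mod_cast this
    have h4 : (m : ℝ) ≤ h := by exact_mod_cast h1 m h3 le_rfl
    have h5 : min (m : ℝ) (min ((k : ℝ) + 2) (T * Real.log (2 + m / T))) ≤ m := min_le_left _ _
    linarith
  · obtain ⟨p, hp⟩ : ∃ p : ℕ, p = (2 * n + k) / n := ⟨_, rfl⟩
    have hpn : p * n ≤ 2 * n + k := by
      rw [hp]
      exact Nat.div_mul_le_self _ _
    have hpn2 : 2 * n + k < (p + 1) * n := by
      have h3 := Nat.div_add_mod (2 * n + k) n
      have h4 := Nat.mod_lt (2 * n + k) hn
      rw [← hp] at h3
      nlinarith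
    have hpT : (p : ℝ) ≤ T := by
      have : (p : ℝ) * n ≤ T * n := by
        rw [hTn]
        exact_mod_cast hpn
      exact le_of_mul_le_mul_right this hn0
    have hpT2 : T < p + 1 := by
      have : T * n < (p + 1) * n := by
        rw [hTn]
        exact_mod_cast hpn2
      exact lt_of_mul_lt_mul_right this hn0.le
    have hpm : p ≤ m := by
      have : (p : ℝ) ≤ m := hpT.trans hmT.le
      exact_mod_cast this
    have hph : (p : ℝ) ≤ h := by exact_mod_cast h1 p hpn hpm
    have hTh : T ≤ 3 / 2 * h := by linarith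
    obtain ⟨r, hr⟩ : ∃ r : ℝ, r = m / T := ⟨_, rfl⟩
    have hrT : r * T = m := by
      rw [hr]
      field_simp
    have hr1 : 1 < r := by
      rw [hr, lt_div_iff₀ hT0]
      linarith
    have hr0 : 0 < r := by linarith
    obtain ⟨lam, hlam⟩ : ∃ lam : ℝ, lam = Real.log r := ⟨_, rfl⟩
    have hlog3 : Real.log 3 ≤ 2 := by
      have := Real.log_le_sub_one_of_pos (show (0 : ℝ) < 3 by norm_num)
      linarith
    have hlogF : T * Real.log (2 + r) ≤ T * (2 + lam) := by
      apply mul_le_mul_of_nonneg_left _ hT0.le
      have h6 : Real.log (2 + r) ≤ Real.log (3 * r) :=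
        Real.log_le_log (by linarith) (by linarith)
      rw [Real.log_mul (by norm_num) hr0.ne'] at h6
      linarith
    rw [← hr]
    have hF2 : min (m : ℝ) (min ((k : ℝ) + 2) (T * Real.log (2 + r))) ≤ T * Real.log (2 + r) :=
      (min_le_right _ _).trans (min_le_right _ _)
    have hF1 : min (m : ℝ) (min ((k : ℝ) + 2) (T * Real.log (2 + r))) ≤ k + 2 :=
      (min_le_right _ _).trans (min_le_left _ _)
    have hk2 : (k : ℝ) + 2 ≤ T * n := by
      rw [hTn]
      have : (1 : ℝ) ≤ n := by exact_mod_cast hn
      linarith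
    rcases le_or_gt lam 20 with hl | hl
    · have h3 : T * (2 + lam) ≤ T * 22 := mul_le_mul_of_nonneg_left (by linarith) hT0.le
      linarith
    · rcases Nat.lt_or_ge n 5 with hn5 | hn5
      · have h3 : (n : ℝ) ≤ 4 := by
          have : n ≤ 4 := by omega
          exact_mod_cast this
        have h4 : T * n ≤ T * 4 := mul_le_mul_of_nonneg_left h3 hT0.le
        linarith
      · obtain ⟨q, hq⟩ : ∃ q : ℕ, q = p / 3 := ⟨_, rfl⟩
        have hq1 : 3 * q ≤ p := by omega
        have hq2 : p < 3 * q + 3 := by omega
        have hqT : 3 * (q : ℝ) ≤ T := by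
          have : 3 * (q : ℝ) ≤ p := by exact_mod_cast hq1
          linarith
        have hp3 : 3 ≤ p := by
          have : (2 : ℝ) < p := by linarith
          have : 2 < p := by exact_mod_cast this
          omega
        have hq3 : 1 ≤ q := by omega
        have hqT2 : T ≤ 6 * q := by
          have h4 : T < 3 * q + 3 := by
            have h5 : p + 1 ≤ 3 * q + 3 := by omega
            have h6 : (p : ℝ) + 1 ≤ 3 * q + 3 := by exact_mod_cast h5
            linarith
          have h5 : (1 : ℝ) ≤ q := by exact_mod_cast hq3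
          linarith
        obtain ⟨L, hL⟩ : ∃ L : ℕ, L = ⌊lam / 2⌋₊ := ⟨_, rfl⟩
        have hL1 : (L : ℝ) ≤ lam / 2 := by
          rw [hL]
          exact Nat.floor_le (by linarith)
        have hL2 : lam / 2 < L + 1 := by
          rw [hL]
          exact Nat.lt_floor_add_one _
        obtain ⟨n', hn'⟩ : ∃ n' : ℕ, n' = min (n / 5) L := ⟨_, rfl⟩
        have hL9 : 9 ≤ L := by
          have : (9 : ℝ) < L := by linarith
          exact_mod_cast this.le
        have hn'1 : 1 ≤ n' := by
          rw [hn']
          exact le_min (by omega) (by omega)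
        have hn'5 : 5 * n' ≤ n := by
          have : n' ≤ n / 5 := by
            rw [hn']
            exact min_le_left _ _
          omega
        have hn'L : n' ≤ L := by
          rw [hn']
          exact min_le_right _ _
        have h20 := h2 q n' hn'1 ?_ ?_
        · have h20' : (q : ℝ) * n' ≤ 20 * h := by exact_mod_cast h20
          have hTn' : T * n' ≤ 120 * h := by
            have : T * n' ≤ 6 * q * n' := mul_le_mul_of_nonneg_right hqT2 (Nat.cast_nonneg _)
            linarith
          rcases Nat.le_total (n / 5) L with h6 | h6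
          · have h7 : n' = n / 5 := by rw [hn', min_eq_left h6]
            have h8 : (n : ℝ) ≤ 10 * n' := by
              have : n ≤ 10 * n' := by omega
              exact_mod_cast this
            have h9 : T * n ≤ T * (10 * n') := mul_le_mul_of_nonneg_left h8 hT0.le
            have h10 : T * (10 * (n' : ℝ)) = 10 * (T * n') := by ring
            linarith
          · have h7 : n' = L := by rw [hn', min_eq_right h6]
            rw [h7] at hTn'
            have h8 : 2 + lam ≤ 3 * L := by linarith
            have h9 : T * (2 + lam) ≤ T * (3 * L) := mul_le_mul_of_nonneg_left h8 hT0.le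
            have h10 : T * (3 * (L : ℝ)) = 3 * (T * L) := by ring
            linarith
        · -- count
          have h6 : 5 * n' / 2 * (n / n' + 1) ≤ 3 * n := by
            have h7 : 2 * (5 * n' / 2) ≤ 5 * n' := by omega
            have h8 : n' * (n / n') ≤ n := Nat.mul_div_le _ _
            have h9 : 2 * (5 * n' / 2 * (n / n' + 1)) ≤ 6 * n := by
              calc 2 * (5 * n' / 2 * (n / n' + 1)) = 2 * (5 * n' / 2) * (n / n' + 1) := by ring
                _ ≤ 5 * n' * (n / n' + 1) := Nat.mul_le_mul_right _ h7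
                _ = 5 * (n' * (n / n')) + 5 * n' := by ring
                _ ≤ 5 * n + n := by omega
                _ = 6 * n := by ring
            omega
          calc q * (5 * n' / 2 * (n / n' + 1)) ≤ q * (3 * n) := Nat.mul_le_mul_left _ h6
            _ = 3 * q * n := by ring
            _ ≤ p * n := Nat.mul_le_mul_right _ hq1
            _ ≤ 2 * n + k := hpn
        · have h6 : (2 : ℝ) ^ (5 * n' / 2) ≤ r := by
            rw [← Real.exp_log hr0, ← hlam]
            have h7 : (2 : ℝ) ^ (5 * n' / 2) = Real.exp ((5 * n' / 2 : ℕ) * Real.log 2) := by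
              rw [Real.exp_nat_mul, Real.exp_log (by norm_num)]
            rw [h7]
            apply Real.exp_le_exp.2
            have h8 : ((5 * n' / 2 : ℕ) : ℝ) ≤ 5 * n' / 2 := by
              have h9 : 2 * (5 * n' / 2) ≤ 5 * n' := by omega
              have h10 : 2 * ((5 * n' / 2 : ℕ) : ℝ) ≤ 5 * n' := by exact_mod_cast h9
              linarith
            have h9 : (n' : ℝ) ≤ lam / 2 := by
              have : (n' : ℝ) ≤ L := by exact_mod_cast hn'L
              linarith
            have h10 := Real.log_two_lt_d9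
            have h11 := Real.log_two_gt_d9
            have h12 : ((5 * n' / 2 : ℕ) : ℝ) * Real.log 2 ≤ (5 * lam / 4) * 0.7 := by
              apply mul_le_mul (by linarith) (by linarith) (by linarith) (by linarith)
            linarith
          have h7 : (q : ℝ) * 2 ^ (5 * n' / 2) ≤ m := by
            rw [← hrT]
            have h8 : (q : ℝ) * 2 ^ (5 * n' / 2) ≤ q * r :=
              mul_le_mul_of_nonneg_left h6 (Nat.cast_nonneg _)
            have h9 : (q : ℝ) ≤ T := by
              have : (0 : ℝ) ≤ q := Nat.cast_nonneg _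
              linarith
            have h10 : (q : ℝ) * r ≤ T * r := mul_le_mul_of_nonneg_right h9 hr0.le
            linarith [mul_comm T r]
          exact_mod_cast h7


end Pool.Agent.Helper865.Kne
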