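import Mathlib

set_option autoImplicit false

namespace Pool.Agent.Helper865.Kne

lemma num_upper (n k m h : ℕ) (hn : 1 ≤ n) (hk : n ≤ k) (hm : 1 ≤ m) (h1 : h ≤ m) (h2 : h ≤ k + 2)
    (h3 : (h : ℝ) ≤ (2 + (k : ℝ) / n) * (1 + max 0 (Real.log (m / (2 + (k : ℝ) / n)))) + 1) :
    (h : ℝ) ≤ 2 * min (m : ℝ) (min ((k : ℝ) + 2)
      ((2 + (k : ℝ) / n) * Real.log (2 + m / (2 + (k : ℝ) / n)))) := by
  have hn0 : (0:ℝ) < n := by exact_mod_cast hn
  have hkn : (1:ℝ) ≤ (k:ℝ)/n := by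
    rw [le_div_iff₀ hn0, one_mul]; exact_mod_cast hk
  obtain ⟨t, ht⟩ : ∃ t : ℝ, t = 2 + (k:ℝ)/n := ⟨_, rfl⟩
  rw [← ht] at h3 ⊢
  have ht3 : 3 ≤ t := by linarith
  have hm' : (1:ℝ) ≤ m := by exact_mod_cast hm
  have h1' : (h:ℝ) ≤ m := by exact_mod_cast h1
  have h2' : (h:ℝ) ≤ k + 2 := by exact_mod_cast h2
  have hk0 : (0:ℝ) ≤ k := Nat.cast_nonneg k
  rw [mul_min_of_nonneg _ _ (by norm_num : (0:ℝ) ≤ 2),
    mul_min_of_nonneg _ _ (by norm_num : (0:ℝ) ≤ 2)]
  refine le_min (by linarith) (le_min (by linarith) ?_)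
  obtain ⟨x, hx⟩ : ∃ x, x = (m:ℝ)/t := ⟨_, rfl⟩
  rw [← hx] at h3 ⊢
  have hx0 : 0 < x := by rw [hx]; positivity
  have key : 4/3 + max 0 (Real.log x) ≤ 2 * Real.log (2 + x) := by
    have l2 : 0.69 < Real.log 2 := by linarith [Real.log_two_gt_d9]
    have l2x : Real.log 2 ≤ Real.log (2+x) := Real.log_le_log (by norm_num) (by linarith)
    have h8 : Real.log 8 = 3 * Real.log 2 := by
      rw [show (8:ℝ) = 2^3 by norm_num, Real.log_pow]; norm_num
    have e : 2 * Real.log (2+x) = Real.log ((2+x)^2) := by rw [Real.log_pow]; norm_num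
    have h9 : Real.log (8*x) ≤ Real.log ((2+x)^2) :=
      Real.log_le_log (by positivity) (by nlinarith [sq_nonneg (x-2)])
    rw [Real.log_mul (by norm_num) hx0.ne'] at h9
    rcases le_total 0 (Real.log x) with h | h
    · rw [max_eq_right h]; linarith
    · rw [max_eq_left h]; linarith
  nlinarith

lemma num_fixed (l : ℕ) (C : ℝ) (hC : 0 < C) : ∃ K : ℝ, 0 < K ∧ ∀ n k m : ℕ, l < n →
    (k : ℝ) ≤ C * n → 2 ≤ m →
    ((2 * n + k).choose (l + 1) : ℝ) / (n.choose (l + 1) : ℝ) *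
      (1 + max 0 (Real.log (m / (((2 * n + k).choose (l + 1) : ℝ) / (n.choose (l + 1) : ℝ))))) + 1
      ≤ K * Real.log m := by
  obtain ⟨M, hM⟩ : ∃ M : ℝ, M = ((C + 2) * (l + 1)) ^ (l + 1) := ⟨_, rfl⟩
  have hM0 : 0 < M := by rw [hM]; positivity
  refine ⟨3 * M + 2, by positivity, ?_⟩
  intro n k m hln hkC hm
  obtain ⟨T, hT⟩ : ∃ T : ℝ, T = ((2 * n + k).choose (l + 1) : ℝ) / (n.choose (l + 1) : ℝ) := ⟨_, rfl⟩
  rw [← hT]
  have hnpos : 0 < n := by omega
  have hc0 : 0 < n.choose (l + 1) := Nat.choose_pos (by omega)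
  have hc0' : (0:ℝ) < (n.choose (l + 1) : ℝ) := by exact_mod_cast hc0
  have hT1 : 1 ≤ T := by
    rw [hT, le_div_iff₀ hc0', one_mul]
    exact_mod_cast Nat.choose_le_choose (l + 1) (by omega)
  have hTM : T ≤ M := by
    have a1 : ((2 * n + k).choose (l + 1) : ℝ) ≤ ((2 * n + k : ℕ) : ℝ) ^ (l + 1) / ((l + 1).factorial : ℝ) :=
      Nat.choose_le_pow_div (l + 1) (2 * n + k)
    have a2 : (((n + 1 - (l + 1) : ℕ) : ℝ) ^ (l + 1)) / ((l + 1).factorial : ℝ) ≤ (n.choose (l + 1) : ℝ) :=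
      Nat.pow_le_choose (l + 1) n
    have hf : (0:ℝ) < ((l + 1).factorial : ℝ) := by exact_mod_cast Nat.factorial_pos _
    have e1 : n + 1 - (l + 1) = n - l := by omega
    rw [e1] at a2
    obtain ⟨d, hd⟩ : ∃ d, n = l + 1 + d := ⟨n - (l + 1), by omega⟩
    have e2 : n - l = d + 1 := by omega
    rw [e2] at a2
    have hb : ((2 * n + k : ℕ) : ℝ) ≤ (C + 2) * (l + 1) * ((d + 1 : ℕ) : ℝ) := by
      have c1 : ((2 * n + k : ℕ) : ℝ) ≤ (C + 2) * n := by
        push_cast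
        linarith
      have c2 : (n : ℝ) ≤ (l + 1) * ((d + 1 : ℕ) : ℝ) := by
        rw [hd]
        push_cast
        have h1 : (0:ℝ) ≤ l := Nat.cast_nonneg l
        have h2 : (0:ℝ) ≤ d := Nat.cast_nonneg d
        nlinarith
      calc ((2 * n + k : ℕ) : ℝ) ≤ (C + 2) * n := c1
        _ ≤ (C + 2) * ((l + 1) * ((d + 1 : ℕ) : ℝ)) := mul_le_mul_of_nonneg_left c2 (by linarith)
        _ = _ := by ring
    have hb2 : ((2 * n + k : ℕ) : ℝ) ^ (l + 1) ≤ M * ((d + 1 : ℕ) : ℝ) ^ (l + 1) := by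
      rw [hM, ← mul_pow]
      exact pow_le_pow_left₀ (by positivity) hb _
    rw [hT, div_le_iff₀ hc0']
    calc ((2 * n + k).choose (l + 1) : ℝ) ≤ ((2 * n + k : ℕ) : ℝ) ^ (l + 1) / ((l + 1).factorial : ℝ) := a1
      _ ≤ (M * ((d + 1 : ℕ) : ℝ) ^ (l + 1)) / ((l + 1).factorial : ℝ) :=
          div_le_div_of_nonneg_right hb2 hf.le
      _ = M * (((d + 1 : ℕ) : ℝ) ^ (l + 1) / ((l + 1).factorial : ℝ)) := by ring
      _ ≤ M * (n.choose (l + 1) : ℝ) := mul_le_mul_of_nonneg_left a2 hM0.le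
  have hm' : (2:ℝ) ≤ m := by exact_mod_cast hm
  have l2 : 0.69 < Real.log 2 := by linarith [Real.log_two_gt_d9]
  have l2m : Real.log 2 ≤ Real.log m := Real.log_le_log (by norm_num) hm'
  have hlog : Real.log (m / T) ≤ Real.log m := by
    apply Real.log_le_log (by positivity)
    exact div_le_self (by linarith) hT1
  have hmax : max 0 (Real.log (m / T)) ≤ Real.log m := max_le (by linarith) hlog
  have h1 : T * (1 + max 0 (Real.log (m / T))) ≤ M * (1 + Real.log m) := by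
    apply mul_le_mul hTM (by linarith) _ hM0.le
    have := le_max_left 0 (Real.log (m / T))
    linarith
  nlinarith

lemma num_fixed2 : ∃ c : ℝ, 0 < c ∧ ∀ n k m : ℕ, 1 ≤ n → n ≤ k → 2 ≤ m →
    m ≤ (2 * n + k).choose n →
    c * Real.log m ≤ min (m : ℝ) (min ((k : ℝ) + 2)
      ((2 + (k : ℝ) / n) * Real.log (2 + m / (2 + (k : ℝ) / n)))) := by
  refine ⟨1/4, by norm_num, ?_⟩
  intro n k m hn hk hm hmc
  have hn0 : (0:ℝ) < n := by exact_mod_cast hn
  have hkn : (1:ℝ) ≤ (k:ℝ)/n := by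
    rw [le_div_iff₀ hn0, one_mul]; exact_mod_cast hk
  obtain ⟨t, ht⟩ : ∃ t : ℝ, t = 2 + (k:ℝ)/n := ⟨_, rfl⟩
  rw [← ht]
  have ht3 : 3 ≤ t := by linarith
  have hm' : (2:ℝ) ≤ m := by exact_mod_cast hm
  have hk0 : (0:ℝ) ≤ k := Nat.cast_nonneg k
  have hnk' : (n:ℝ) ≤ k := by exact_mod_cast hk
  have l2 : 0.69 < Real.log 2 := by linarith [Real.log_two_gt_d9]
  have l2' : Real.log 2 < 0.7 := by linarith [Real.log_two_lt_d9]
  have l2m : Real.log 2 ≤ Real.log m := Real.log_le_log (by norm_num) hm'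
  have hlm : Real.log m ≤ m := by
    have := Real.log_le_sub_one_of_pos (by linarith : (0:ℝ) < m)
    linarith
  refine le_min (by linarith) (le_min ?_ ?_)
  · have h1 : (m:ℝ) ≤ 2 ^ (2 * n + k) := by
      have := hmc.trans (Nat.choose_le_two_pow (2 * n + k) n)
      exact_mod_cast this
    have h2 : Real.log m ≤ (2 * n + k : ℕ) * Real.log 2 := by
      rw [← Real.log_pow]
      exact Real.log_le_log (by linarith) h1
    push_cast at h2
    nlinarith
  · rcases le_total (m:ℝ) (t ^ 2) with h | h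
    · have h1 : Real.log m ≤ 2 * Real.log t := by
        have : Real.log m ≤ Real.log (t ^ 2) := Real.log_le_log (by linarith) h
        rw [Real.log_pow] at this
        exact_mod_cast this
      have h2 : Real.log t ≤ t := by
        have := Real.log_le_sub_one_of_pos (by linarith : (0:ℝ) < t)
        linarith
      have h3 : Real.log 2 ≤ Real.log (2 + m / t) := by
        apply Real.log_le_log (by norm_num)
        have : 0 ≤ (m:ℝ)/t := by positivity
        linarith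
      nlinarith
    · have h1 : Real.sqrt m ≤ m / t := by
        rw [le_div_iff₀ (by linarith)]
        have h2 : t ≤ Real.sqrt m := Real.le_sqrt_of_sq_le h
        have h3 := Real.mul_self_sqrt (by linarith : (0:ℝ) ≤ m)
        have h4 := Real.sqrt_nonneg (m:ℝ)
        nlinarith
      have hs : 0 < Real.sqrt m := Real.sqrt_pos.2 (by linarith)
      have h5 : Real.log (Real.sqrt m) ≤ Real.log (2 + m / t) :=
        Real.log_le_log hs (by linarith)
      rw [Real.log_sqrt (by linarith)] at h5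
      nlinarith

end Pool.Agent.Helper865.Kne
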