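import Pool.Agent.Helper865.Kne.Defs

set_option autoImplicit false

open Finset

namespace Pool.Agent.Helper865.Kne


lemma kneser_upper (n k : ℕ) (hn : 1 ≤ n) (W : Finset (Finset (Fin (2 * n + k))))
    (hW : ∀ A ∈ W, A.card = n) : Col 0 W (k + 2) := by
  classical
  refine ⟨fun A => if h : ∃ m, m ≤ k ∧ ∃ x ∈ A, (x : ℕ) = m then Nat.find h else k + 1, ?_, ?_⟩
  · intro A _
    dsimp only
    by_cases h : ∃ m, m ≤ k ∧ ∃ x ∈ A, (x : ℕ) = m
    · rw [dif_pos h]
      have := (Nat.find_spec h).1
      omega
    · rw [dif_neg h]; omega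
  · intro A hA B hB _ hf
    dsimp only at hf
    by_cases h : ∃ m, m ≤ k ∧ ∃ x ∈ A, (x : ℕ) = m
    · rw [dif_pos h] at hf
      obtain ⟨h1, x, hx, hx'⟩ := Nat.find_spec h
      by_cases h' : ∃ m, m ≤ k ∧ ∃ x ∈ B, (x : ℕ) = m
      · rw [dif_pos h'] at hf
        obtain ⟨h2, y, hy, hy'⟩ := Nat.find_spec h'
        have hxy : x = y := Fin.ext (by rw [hx', hy', hf])
        exact Finset.card_pos.2 ⟨x, Finset.mem_inter.2 ⟨hx, hxy ▸ hy⟩⟩
      · rw [dif_neg h'] at hf
        omega
    · rw [dif_neg h] at hf
      by_cases h' : ∃ m, m ≤ k ∧ ∃ x ∈ B, (x : ℕ) = m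
      · rw [dif_pos h'] at hf
        have := (Nat.find_spec h').1
        omega
      · have hcard : (A ∪ B).card ≤ (Finset.Ico (k + 1) (2 * n + k)).card := by
          refine Finset.card_le_card_of_injOn (fun x => (x : ℕ)) ?_ ?_
          · intro x hx
            rw [Finset.mem_coe, Finset.mem_union] at hx
            have hxk : ¬ (x : ℕ) ≤ k := by
              intro hxk
              rcases hx with hx | hx
              · exact h ⟨x, hxk, x, hx, rfl⟩
              · exact h' ⟨x, hxk, x, hx, rfl⟩
            simp only [Finset.coe_Ico, Set.mem_Ico]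
            have := x.2
            omega
          · intro x _ y _ hxy
            exact Fin.ext hxy
        rw [Nat.card_Ico] at hcard
        have h1 := Finset.card_union_add_card_inter A B
        rw [hW A hA, hW B hB] at h1
        omega

end Pool.Agent.Helper865.Kne
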