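import Pool.Agent.Helper865.Kne.U1
import Pool.Agent.Helper865.Kne.U2
import Pool.Agent.Helper865.Kne.L1
import Pool.Agent.Helper865.Kne.L3
import Pool.Agent.Helper865.Kne.L4
import Pool.Agent.Helper865.Kne.D
import Pool.Agent.Helper865.Kne.N1
import Pool.Agent.Helper865.Kne.N2
import Pool.Agent.Helper865.Kne.E1
import Pool.Agent.Helper865.Kne.E2
import Pool.Agent.Helper865.Kne.E3

set_option autoImplicit false

open Finset

namespace Pool.Agent.Helper865.Kne

lemma Col_mono_c {α : Type*} [DecidableEq α] {l c c' : ℕ} {W : Finset (Finset α)} (h : c ≤ c')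
    (hW : Col l W c) : Col l W c' := by
  obtain ⟨f, h1, h2⟩ := hW
  exact ⟨f, fun A hA => lt_of_lt_of_le (h1 A hA) h, h2⟩

lemma Col_zero {α : Type*} [DecidableEq α] {l c : ℕ} {W : Finset (Finset α)}
    (hW : Col l W c) : Col 0 W c := by
  obtain ⟨f, h1, h2⟩ := hW
  exact ⟨f, h1, fun A hA B hB hAB hf => lt_of_le_of_lt (Nat.zero_le _) (h2 A hA B hB hAB hf)⟩

lemma Col_card {α : Type*} [DecidableEq α] (l : ℕ) (W : Finset (Finset α)) : Col l W W.card := by
  classical
  refine ⟨fun A => if h : A ∈ W then (W.equivFin ⟨A, h⟩ : ℕ) else 0, ?_, ?_⟩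
  · intro A hA
    simp only [hA, dif_pos]
    exact (W.equivFin ⟨A, hA⟩).2
  · intro A hA B hB hAB hf
    exfalso
    simp only [hA, hB, dif_pos] at hf
    have := W.equivFin.injective (Fin.ext hf)
    exact hAB (by simpa using this)

/-- the quantity `C(N, l+1) / C(n, l+1)`, `N = 2 n + k` -/
noncomputable def T (n k l : ℕ) : ℝ := ((2 * n + k).choose (l + 1) : ℝ) / (n.choose (l + 1) : ℝ)

/-- the quantity `min (m, k + 2, t log (2 + m / t))` with `t = (2 n + k) / n` -/
noncomputable def F (m n k : ℕ) : ℝ :=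
  min (m : ℝ) (min ((k : ℝ) + 2) ((2 + (k : ℝ) / n) * Real.log (2 + m / (2 + (k : ℝ) / n))))

lemma upper_general (n k l m : ℕ) (hl : l < n) :
    (hh m n k l : ℝ) ≤ T n k l * (1 + max 0 (Real.log (m / T n k l))) + 1 := by
  have hT : 0 ≤ T n k l * (1 + max 0 (Real.log (m / T n k l))) + 1 := by
    have : 0 ≤ T n k l := by rw [T]; positivity
    have h2 : 0 ≤ max 0 (Real.log (m / T n k l)) := le_max_left _ _
    positivity
  have h := hh_le (m := m) (n := n) (k := k) (l := l)
    (c := ⌊T n k l * (1 + max 0 (Real.log (m / T n k l))) + 1⌋₊) (by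
      intro W hW hWm
      obtain ⟨c, hc1, hc2⟩ := greedy n l (by omega) (by simp; omega) W hW
      refine Col_mono_c ?_ hc2
      apply Nat.le_floor
      rw [hWm] at hc1
      simp only [Fintype.card_fin] at hc1
      exact hc1)
  calc (hh m n k l : ℝ) ≤ (⌊T n k l * (1 + max 0 (Real.log (m / T n k l))) + 1⌋₊ : ℝ) := by
        exact_mod_cast h
    _ ≤ _ := Nat.floor_le hT

lemma lower_general (n k l m : ℕ) (hn : 1 ≤ n) (hk : n ≤ k) (hm : 1 ≤ m)
    (hm2 : m ≤ (2 * n + k).choose n) : F m n k / 2000 ≤ hh m n k l := by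
  rw [F]
  refine num_lower n k m (hh m n k l) hn hk hm ?_ ?_
  · intro p hp hpm
    obtain ⟨W, hW, hWp, hc⟩ := clique_lower n p (2 * n + k) hn hp
    exact le_hh hm2 W hW (by omega) (fun c' hc' => hc c' (Col_zero hc'))
  · intro q n' hn' hq hqm
    obtain ⟨W, hW, hWp, hc⟩ := join_lower (fun M n c h1 h2 h3 => kneser_lower
      (fun M n c h1 h2 => harris M n c h1 h2) M n c h1 h2 h3) n n' q (2 * n + k) hn hn' hq
    have := le_hh (l := l) (c := (q * n' + 19) / 20) hm2 W hW (by omega) (fun c' hc' => by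
      have := hc c' (Col_zero hc')
      omega)
    omega

lemma one_le_hh (n k l m : ℕ) (hm : 1 ≤ m) (hm2 : m ≤ (2 * n + k).choose n) (hn : 1 ≤ n) :
    1 ≤ hh m n k l := by
  obtain ⟨W, hW, hWp, hc⟩ := clique_lower n 1 (2 * n + k) hn (by omega)
  exact le_hh hm2 W hW (by omega) (fun c' hc' => hc c' (Col_zero hc'))

lemma lower_eps (ε : ℝ) (hε : 0 < ε) (hε1 : ε ≤ 1) : ∃ c : ℝ, 0 < c ∧
    ∀ n k l m : ℕ, 1 ≤ n → ε * n ≤ k → k ≤ n → 2 ≤ m → m ≤ (2 * n + k).choose n →
      c * Real.log m ≤ hh m n k l := by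
  obtain ⟨κ, hκ, hk⟩ := kneser_lower_eps (fun M n c h1 h2 => harris M n c h1 h2) (ε / 5)
    (by positivity) (by linarith)
  obtain ⟨c, hc, h⟩ := num_eps ε κ hε hε1 hκ
  refine ⟨c, hc, ?_⟩
  intro n k l m hn hkn hkn2 hm hm2
  refine h n k m (hh m n k l) hn hkn hkn2 hm hm2 (one_le_hh n k l m (by omega) hm2 hn) ?_
  intro n' M hn' hM hN hMm
  obtain ⟨W, hW, hWc, hWl⟩ := blow_lower n n' M (2 * n + k) hn hn' hN
  have h1 := le_hh (l := l) (c := ⌈κ * n'⌉₊) hm2 W hW (by omega) (fun c' hc' => by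
    apply Nat.ceil_le.2
    exact hk M n' c' hn' hM (hWl c' (Col_zero hc')))
  exact le_trans (Nat.le_ceil _) (by exact_mod_cast h1)

/-- estimates for the largest chromatic number of an `m`-vertex subgraph -/
theorem estimates :
    (∀ n k m : ℕ, 1 ≤ n → n ≤ k → 1 ≤ m → m ≤ (2 * n + k).choose n →
      F m n k / 2000 ≤ hh m n k 0 ∧ (hh m n k 0 : ℝ) ≤ 2 * F m n k) ∧
    (∀ (l : ℕ) (ε C : ℝ), 0 < ε → 0 < C → ∃ c₁ c₂ : ℝ, 0 < c₁ ∧ 0 < c₂ ∧
      ∀ n k m : ℕ, l < n → ε * n ≤ k → (k : ℝ) ≤ C * n → 2 ≤ m → m ≤ (2 * n + k).choose n →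
      c₁ * Real.log m ≤ hh m n k l ∧ (hh m n k l : ℝ) ≤ c₂ * Real.log m) ∧
    (∀ n k l m : ℕ, l < n →
      (hh m n k l : ℝ) ≤ T n k l * (1 + max 0 (Real.log (m / T n k l))) + 1) := by
  refine ⟨?_, ?_, fun n k l m hl => upper_general n k l m hl⟩
  · intro n k m hn hk hm hm2
    refine ⟨lower_general n k 0 m hn hk hm hm2, ?_⟩
    rw [F]
    refine num_upper n k m (hh m n k 0) hn hk hm ?_ ?_ ?_
    · refine hh_le fun W hW hWm => ?_
      rw [← hWm]
      exact Col_card 0 W
    · exact hh_le fun W hW _ => kneser_upper n k hn W hW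
    · have h := upper_general n k 0 m (by omega)
      have hT : T n k 0 = 2 + (k : ℝ) / n := by
        rw [T]
        simp only [zero_add, Nat.choose_one_right]
        have : (n : ℝ) ≠ 0 := by positivity
        push_cast
        field_simp
      rw [hT] at h
      exact h
  · intro l ε C hε hC
    obtain ⟨K, hK, h1⟩ := num_fixed l C hC
    obtain ⟨c, hc, h2⟩ := num_fixed2
    obtain ⟨d, hd, h3⟩ := lower_eps (min ε 1) (by positivity) (min_le_right _ _)
    refine ⟨min (c / 2000) d, K, by positivity, hK, ?_⟩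
    intro n k m hl hk hkC hm hm2
    have hlog : 0 ≤ Real.log m := Real.log_nonneg (by exact_mod_cast (by omega : 1 ≤ m))
    refine ⟨?_, le_trans (upper_general n k l m hl) ?_⟩
    · rcases le_total n k with hnk | hnk
      · have h4 := lower_general n k l m (by omega) hnk (by omega) hm2
        have h5 := h2 n k m (by omega) hnk hm hm2
        rw [F] at h4
        have h6 : c / 2000 * Real.log m = c * Real.log m / 2000 := by ring
        refine le_trans (mul_le_mul_of_nonneg_right (min_le_left _ _) hlog) ?_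
        rw [h6]
        refine le_trans ?_ h4
        exact div_le_div_of_nonneg_right h5 (by norm_num)
      · refine le_trans (mul_le_mul_of_nonneg_right (min_le_right _ _) hlog) ?_
        refine h3 n k l m (by omega) ?_ hnk hm hm2
        refine le_trans (mul_le_mul_of_nonneg_right (min_le_left _ _) (Nat.cast_nonneg n)) hk
    · rw [T]
      exact h1 n k m hl hkC hm

end Pool.Agent.Helper865.Kne
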