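import Pool.Agent.Helper865.Kne.Defs

set_option autoImplicit false

open Finset

namespace Pool.Agent.Helper865.Kne


lemma gr_pick {α : Type*} [Fintype α] [DecidableEq α] (n l : ℕ) (hl : l + 1 ≤ n)
    (hn : n ≤ Fintype.card α) (W : Finset (Finset α)) (hW : ∀ A ∈ W, A.card = n) :
    ∃ S : Finset α, S.card = l + 1 ∧
      W.card * n.choose (l + 1) ≤ (W.filter (fun A => S ⊆ A)).card * (Fintype.card α).choose (l + 1) := by
  by_contra hcon
  push Not at hcon
  have h1 : ∑ S ∈ (univ : Finset α).powersetCard (l + 1), (W.filter (fun A => S ⊆ A)).card =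
      W.card * n.choose (l + 1) := by
    have h2 : ∀ S : Finset α, (W.filter (fun A => S ⊆ A)).card = ∑ A ∈ W, if S ⊆ A then 1 else 0 := by
      intro S
      rw [Finset.card_filter]
    simp only [h2]
    rw [Finset.sum_comm]
    have h3 : ∀ A ∈ W, ∑ S ∈ (univ : Finset α).powersetCard (l + 1), (if S ⊆ A then 1 else 0) =
        n.choose (l + 1) := by
      intro A hA
      rw [← Finset.card_filter, ← hW A hA, ← Finset.card_powersetCard]
      congr 1
      ext S
      simp only [Finset.mem_filter, Finset.mem_powersetCard, Finset.subset_univ, true_and]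
      exact and_comm
    rw [Finset.sum_congr rfl h3, Finset.sum_const, smul_eq_mul]
  have hne : ((univ : Finset α).powersetCard (l + 1)).Nonempty := by
    rw [Finset.powersetCard_nonempty, Finset.card_univ]
    omega
  have h4 : ∑ S ∈ (univ : Finset α).powersetCard (l + 1),
      (W.filter (fun A => S ⊆ A)).card * (Fintype.card α).choose (l + 1) <
      ∑ S ∈ (univ : Finset α).powersetCard (l + 1), W.card * n.choose (l + 1) := by
    apply Finset.sum_lt_sum_of_nonempty hne
    intro S hS
    exact hcon S (Finset.mem_powersetCard.1 hS).2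
  rw [← Finset.sum_mul, h1, Finset.sum_const, Finset.card_powersetCard, Finset.card_univ, smul_eq_mul,
    mul_comm] at h4
  exact lt_irrefl _ h4

lemma gr_ind {α : Type*} [Fintype α] [DecidableEq α] (n l : ℕ) (hl : l + 1 ≤ n)
    (hn : n ≤ Fintype.card α) (W : Finset (Finset α)) (hW : ∀ A ∈ W, A.card = n) (T : ℝ)
    (hT1 : 1 ≤ T) (hT : T = ((Fintype.card α).choose (l + 1) : ℝ) / (n.choose (l + 1) : ℝ)) (j : ℕ) :
    ∃ (f : Finset α → ℕ) (R : Finset (Finset α)), R ⊆ W ∧ (R.card : ℝ) ≤ W.card * (1 - 1 / T) ^ j ∧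
      (∀ A ∈ W, A ∉ R → f A < j) ∧
      ∀ A ∈ W, ∀ B ∈ W, A ∉ R → B ∉ R → A ≠ B → f A = f B → l < (A ∩ B).card := by
  have hT0 : 0 < T := by linarith
  have hq : 0 ≤ 1 - 1 / T := by
    rw [sub_nonneg, div_le_one hT0]
    exact hT1
  induction j with
  | zero =>
    refine ⟨fun _ => 0, W, Finset.Subset.refl _, by simp, ?_, ?_⟩
    · intro A hA hA'
      exact absurd hA hA'
    · intro A hA B hB hA'
      exact absurd hA hA'
  | succ j ih =>
    obtain ⟨f, R, hR, hRc, h1, h2⟩ := ih
    obtain ⟨S, hS, hc⟩ := gr_pick n l hl hn R (fun A hA => hW A (hR hA))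
    refine ⟨fun A => if A ∈ R ∧ S ⊆ A then j else f A, R.filter (fun A => ¬ S ⊆ A),
      (Finset.filter_subset _ _).trans hR, ?_, ?_, ?_⟩
    · have hsum := Finset.card_filter_add_card_filter_not (s := R) (fun A => S ⊆ A)
      have hsum' : ((R.filter (fun A => S ⊆ A)).card : ℝ) + ((R.filter (fun A => ¬ S ⊆ A)).card : ℝ) = R.card := by
        exact_mod_cast hsum
      have hc' : (R.card : ℝ) * (n.choose (l + 1) : ℝ) ≤
          ((R.filter (fun A => S ⊆ A)).card : ℝ) * ((Fintype.card α).choose (l + 1) : ℝ) := by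
        exact_mod_cast hc
      have hnp : (0 : ℝ) < (n.choose (l + 1) : ℝ) := by
        exact_mod_cast Nat.choose_pos hl
      have hge : (R.card : ℝ) / T ≤ ((R.filter (fun A => S ⊆ A)).card : ℝ) := by
        rw [div_le_iff₀ hT0, hT, mul_div_assoc', le_div_iff₀ hnp]
        exact hc'
      have e1 : ((R.filter (fun A => ¬ S ⊆ A)).card : ℝ) ≤ (R.card : ℝ) * (1 - 1 / T) := by
        have : (R.card : ℝ) * (1 - 1 / T) = R.card - R.card / T := by ring
        rw [this]
        linarith
      calc ((R.filter (fun A => ¬ S ⊆ A)).card : ℝ) ≤ (R.card : ℝ) * (1 - 1 / T) := e1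
        _ ≤ (W.card * (1 - 1 / T) ^ j) * (1 - 1 / T) := mul_le_mul_of_nonneg_right hRc hq
        _ = W.card * (1 - 1 / T) ^ (j + 1) := by ring
    · intro A hA hA'
      show (if A ∈ R ∧ S ⊆ A then j else f A) < j + 1
      by_cases hc2 : A ∈ R ∧ S ⊆ A
      · rw [if_pos hc2]; omega
      · rw [if_neg hc2]
        have hAR : A ∉ R := by
          intro h
          apply hA'
          rw [Finset.mem_filter]
          exact ⟨h, fun h' => hc2 ⟨h, h'⟩⟩
        have := h1 A hA hAR
        omega
    · intro A hA B hB hA' hB' hAB hf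
      have hf' : (if A ∈ R ∧ S ⊆ A then j else f A) = (if B ∈ R ∧ S ⊆ B then j else f B) := hf
      have key : ∀ A ∈ W, A ∉ R.filter (fun A => ¬ S ⊆ A) → ¬ (A ∈ R ∧ S ⊆ A) → A ∉ R := by
        intro A _ hA' hc2 h
        apply hA'
        rw [Finset.mem_filter]
        exact ⟨h, fun h' => hc2 ⟨h, h'⟩⟩
      by_cases hc2 : A ∈ R ∧ S ⊆ A
      · by_cases hc3 : B ∈ R ∧ S ⊆ B
        · have h3 : S ⊆ A ∩ B := Finset.subset_inter hc2.2 hc3.2
          have h4 := Finset.card_le_card h3
          omega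
        · rw [if_pos hc2, if_neg hc3] at hf'
          have := h1 B hB (key B hB hB' hc3)
          omega
      · by_cases hc3 : B ∈ R ∧ S ⊆ B
        · rw [if_neg hc2, if_pos hc3] at hf'
          have := h1 A hA (key A hA hA' hc2)
          omega
        · rw [if_neg hc2, if_neg hc3] at hf'
          exact h2 A hA B hB (key A hA hA' hc2) (key B hB hB' hc3) hAB hf'

lemma greedy {α : Type*} [Fintype α] [DecidableEq α] (n l : ℕ) (hl : l + 1 ≤ n)
    (hn : n ≤ Fintype.card α) (W : Finset (Finset α)) (hW : ∀ A ∈ W, A.card = n) :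
    ∃ c : ℕ, (c : ℝ) ≤ ((Fintype.card α).choose (l + 1) : ℝ) / (n.choose (l + 1) : ℝ) *
        (1 + max 0 (Real.log (W.card /
          (((Fintype.card α).choose (l + 1) : ℝ) / (n.choose (l + 1) : ℝ))))) + 1 ∧
      Col l W c := by
  have hnp : (0 : ℝ) < (n.choose (l + 1) : ℝ) := by
    exact_mod_cast Nat.choose_pos hl
  obtain ⟨T, hT⟩ : ∃ T : ℝ, T = ((Fintype.card α).choose (l + 1) : ℝ) / (n.choose (l + 1) : ℝ) := ⟨_, rfl⟩
  rw [← hT]
  have hT1 : 1 ≤ T := by
    rw [hT, le_div_iff₀ hnp, one_mul]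
    exact_mod_cast Nat.choose_le_choose (l + 1) hn
  have hT0 : 0 < T := by linarith
  obtain ⟨L, hL⟩ : ∃ L : ℝ, L = max 0 (Real.log (W.card / T)) := ⟨_, rfl⟩
  rw [← hL]
  have hL0 : 0 ≤ L := by rw [hL]; exact le_max_left _ _
  obtain ⟨f, R, hR, hRc, h1, h2⟩ := gr_ind n l hl hn W hW T hT1 hT ⌈T * L⌉₊
  have hRT : (R.card : ℝ) ≤ T := by
    by_cases hm : (W.card : ℝ) ≤ T
    · have : (R.card : ℝ) ≤ W.card := by exact_mod_cast Finset.card_le_card hR
      linarith
    · push Not at hm
      have hm0 : (0 : ℝ) < W.card := by linarith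
      have hj : T * L ≤ (⌈T * L⌉₊ : ℝ) := Nat.le_ceil _
      have hLl : Real.log (W.card / T) ≤ L := by rw [hL]; exact le_max_right _ _
      have e1 : (1 - 1 / T) ^ ⌈T * L⌉₊ ≤ Real.exp (-L) := by
        calc (1 - 1 / T) ^ ⌈T * L⌉₊ ≤ (Real.exp (-(1 / T))) ^ ⌈T * L⌉₊ := by
              apply pow_le_pow_left₀
              · rw [sub_nonneg, div_le_one hT0]; exact hT1
              · exact Real.one_sub_le_exp_neg _
          _ = Real.exp ((⌈T * L⌉₊ : ℝ) * (-(1 / T))) := by rw [← Real.exp_nat_mul]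
          _ ≤ Real.exp (-L) := by
              apply Real.exp_le_exp.2
              have : L ≤ (⌈T * L⌉₊ : ℝ) * (1 / T) := by
                rw [mul_one_div, le_div_iff₀ hT0]
                linarith
              linarith
      have e2 : Real.exp (-L) ≤ T / W.card := by
        have e3 : Real.exp (-L) ≤ Real.exp (-Real.log (W.card / T)) := Real.exp_le_exp.2 (by linarith)
        rw [Real.exp_neg (Real.log _), Real.exp_log (by positivity), inv_div] at e3
        exact e3
      calc (R.card : ℝ) ≤ W.card * (1 - 1 / T) ^ ⌈T * L⌉₊ := hRc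
        _ ≤ W.card * (T / W.card) := mul_le_mul_of_nonneg_left (e1.trans e2) hm0.le
        _ = T := by field_simp
  refine ⟨⌈T * L⌉₊ + R.card, ?_, ?_⟩
  · push_cast
    have := Nat.ceil_lt_add_one (mul_nonneg hT0.le hL0)
    linarith
  · refine ⟨fun A => if h : A ∈ R then ⌈T * L⌉₊ + (R.equivFin ⟨A, h⟩ : ℕ) else f A, ?_, ?_⟩
    · intro A hA
      by_cases h : A ∈ R
      · simp only [dif_pos h]
        have := (R.equivFin ⟨A, h⟩).2
        omega
      · simp only [dif_neg h]
        have := h1 A hA h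
        omega
    · intro A hA B hB hAB hf
      by_cases hAR : A ∈ R
      · by_cases hBR : B ∈ R
        · exfalso
          simp only [dif_pos hAR, dif_pos hBR] at hf
          have h3 : R.equivFin ⟨A, hAR⟩ = R.equivFin ⟨B, hBR⟩ := Fin.ext (by omega)
          have h4 := R.equivFin.injective h3
          exact hAB (congrArg Subtype.val h4)
        · exfalso
          simp only [dif_pos hAR, dif_neg hBR] at hf
          have := h1 B hB hBR
          omega
      · by_cases hBR : B ∈ R
        · exfalso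
          simp only [dif_neg hAR, dif_pos hBR] at hf
          have := h1 A hA hAR
          omega
        · simp only [dif_neg hAR, dif_neg hBR] at hf
          exact h2 A hA B hB hAR hBR hAB hf

end Pool.Agent.Helper865.Kne
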